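import Pool.Agent.K4H58.XK.Spec

open Finset

namespace Pool.Agent.K4H58.XK

/-- a largest out-neighbourhood contains all the others -/
theorem exists_top {ι : Type} [Fintype ι] [DecidableEq ι] (P : ι → Prop) [DecidablePred P]
    (R : ι → ι → Prop) [DecidableRel R]
    (h2 : ∀ i j i' j', R i j → R i' j' → R i j' ∨ R i' j) (h : ∃ i, P i) :
    ∃ i₀, P i₀ ∧ ∀ i j, R i j → P i → P j → R i₀ j := by
  obtain ⟨i₁, hi₁⟩ := h
  obtain ⟨i₀, hi₀, hmax⟩ := Finset.exists_max_image (univ.filter P)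
    (fun i => (univ.filter (fun j => R i j ∧ P j)).card) ⟨i₁, by simpa using hi₁⟩
  refine ⟨i₀, by simpa using hi₀, fun i j hij hi hj => ?_⟩
  by_contra hn
  have hlt : (univ.filter (fun j => R i₀ j ∧ P j)).card < (univ.filter (fun j => R i j ∧ P j)).card := by
    apply Finset.card_lt_card
    refine ⟨fun j' hj' => ?_, fun hs => ?_⟩
    · simp only [mem_filter, mem_univ, true_and] at hj' ⊢
      rcases h2 i₀ j' i j hj'.1 hij with h | h
      · exact absurd h hn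
      · exact ⟨h, hj'.2⟩
    · have := hs (by simpa using ⟨hij, hj⟩ : j ∈ univ.filter (fun j => R i j ∧ P j))
      simp only [mem_filter, mem_univ, true_and] at this
      exact hn this.1
  exact absurd (hmax i (by simpa using hi)) (by omega)

/-- the ordered upper cherries at one apex -/
theorem cherries_ge {ι : Type} [Fintype ι] [DecidableEq ι] (P : ι → Prop) [DecidablePred P]
    (R : ι → ι → Prop) [DecidableRel R] (i₀ : ι) (h0 : P i₀) (T : Finset ι)
    (hT : ∀ j ∈ T, R i₀ j ∧ P j) :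
    2 * (T.card - 1) ≤ (univ.filter (fun p : ι × ι × ι => p.2.1 ≠ p.2.2 ∧ R p.1 p.2.1 ∧ R p.1 p.2.2 ∧
        P p.1 ∧ P p.2.1 ∧ P p.2.2)).card := by
  have h1 : (T.offDiag.image (fun q : ι × ι => (i₀, q.1, q.2))).card = T.card * T.card - T.card := by
    rw [Finset.card_image_of_injective, Finset.offDiag_card]
    intro a b hab
    simp only [Prod.mk.injEq, true_and] at hab
    exact Prod.ext hab.1 hab.2
  have h3 : T.offDiag.image (fun q : ι × ι => (i₀, q.1, q.2)) ⊆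
      univ.filter (fun p : ι × ι × ι => p.2.1 ≠ p.2.2 ∧ R p.1 p.2.1 ∧ R p.1 p.2.2 ∧
        P p.1 ∧ P p.2.1 ∧ P p.2.2) := by
    intro p hp
    simp only [mem_image, mem_offDiag] at hp
    obtain ⟨q, ⟨ha, hb, hne⟩, rfl⟩ := hp
    simp only [mem_filter, mem_univ, true_and]
    exact ⟨hne, (hT _ ha).1, (hT _ hb).1, h0, (hT _ ha).2, (hT _ hb).2⟩
  refine le_trans ?_ (Finset.card_le_card h3)
  rw [h1]
  rcases T.card with _ | _ | n
  · simp
  · simp
  · have : (n + 1 + 1) * (n + 1 + 1) = (n + 1 + 1) + (n + 1) * (n + 2) := by ring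
    rw [this]
    have h5 : (n + 1 + 1) + (n + 1) * (n + 2) - (n + 1 + 1) = (n + 1) * (n + 2) := by omega
    rw [h5]
    have h6 : n + 1 + 1 - 1 = n + 1 := by omega
    rw [h6]
    nlinarith

/-- the inequality at one point -/
theorem local_ineq {ι : Type} [Fintype ι] [DecidableEq ι] (P : ι → Prop) [DecidablePred P]
    (R : ι → ι → Prop) [DecidableRel R]
    (h2 : ∀ i j i' j', R i j → R i' j' → R i j' ∨ R i' j) :
    2 * (univ.filter (fun p : ι × ι => R p.1 p.2 ∧ P p.1 ∧ P p.2)).card ≤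
      2 * (if ∃ i j, R i j ∧ P i ∧ P j then 1 else 0) +
      (univ.filter (fun p : ι × ι × ι => p.1 ≠ p.2.1 ∧ R p.1 p.2.2 ∧ R p.2.1 p.2.2 ∧
        P p.1 ∧ P p.2.1 ∧ P p.2.2)).card +
      (univ.filter (fun p : ι × ι × ι => p.2.1 ≠ p.2.2 ∧ R p.1 p.2.1 ∧ R p.1 p.2.2 ∧
        P p.1 ∧ P p.2.1 ∧ P p.2.2)).card := by
  by_cases hex : ∃ i j, R i j ∧ P i ∧ P j
  · rw [if_pos hex]
    obtain ⟨i₁, j₁, h11, hP1, hP2⟩ := hex
    obtain ⟨i₀, hi₀, htop⟩ := exists_top P R h2 ⟨i₁, hP1⟩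
    have hT := cherries_ge P R i₀ hi₀ (univ.filter (fun j => R i₀ j ∧ P j)) (fun j hj => by simpa using hj)
    have hTpos : 0 < (univ.filter (fun j => R i₀ j ∧ P j)).card :=
      Finset.card_pos.2 ⟨j₁, by simpa using ⟨htop i₁ j₁ h11 hP1 hP2, hP2⟩⟩
    -- split the pairs
    have hsplit := Finset.card_filter_add_card_filter_not (s := univ.filter (fun p : ι × ι => R p.1 p.2 ∧ P p.1 ∧ P p.2))
      (fun p : ι × ι => p.1 = i₀)
    have hA : ((univ.filter (fun p : ι × ι => R p.1 p.2 ∧ P p.1 ∧ P p.2)).filter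
        (fun p : ι × ι => p.1 = i₀)).card ≤ (univ.filter (fun j => R i₀ j ∧ P j)).card := by
      apply Finset.card_le_card_of_injOn (fun p => p.2)
      · intro p hp
        simp only [coe_filter, mem_filter, mem_univ, true_and, Set.mem_ofPred_eq] at hp ⊢
        obtain ⟨⟨h, _, h'⟩, rfl⟩ := hp
        exact ⟨h, h'⟩
      · intro p hp q hq h
        simp only [coe_filter, mem_filter, mem_univ, true_and, Set.mem_ofPred_eq] at hp hq
        exact Prod.ext (hp.2.trans hq.2.symm) h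
    have hB : 2 * ((univ.filter (fun p : ι × ι => R p.1 p.2 ∧ P p.1 ∧ P p.2)).filter
        (fun p : ι × ι => ¬ p.1 = i₀)).card ≤
        (univ.filter (fun p : ι × ι × ι => p.1 ≠ p.2.1 ∧ R p.1 p.2.2 ∧ R p.2.1 p.2.2 ∧
          P p.1 ∧ P p.2.1 ∧ P p.2.2)).card := by
      set B := (univ.filter (fun p : ι × ι => R p.1 p.2 ∧ P p.1 ∧ P p.2)).filter
        (fun p : ι × ι => ¬ p.1 = i₀) with hBdef
      have hmem : ∀ p, p ∈ B ↔ (R p.1 p.2 ∧ P p.1 ∧ P p.2) ∧ ¬ p.1 = i₀ := by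
        intro p; rw [hBdef]; simp
      have hdisj : Disjoint (B.image (fun p : ι × ι => (i₀, p.1, p.2))) (B.image (fun p : ι × ι => (p.1, i₀, p.2))) := by
        rw [Finset.disjoint_left]
        intro q hq hq'
        simp only [mem_image] at hq hq'
        obtain ⟨p, hp, rfl⟩ := hq
        obtain ⟨p', hp', he⟩ := hq'
        simp only [Prod.mk.injEq] at he
        exact ((hmem p').1 hp').2 he.1
      have hc1 : (B.image (fun p : ι × ι => (i₀, p.1, p.2))).card = B.card := by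
        apply Finset.card_image_of_injective
        intro a b hab
        simp only [Prod.mk.injEq, true_and] at hab
        exact Prod.ext hab.1 hab.2
      have hc2 : (B.image (fun p : ι × ι => (p.1, i₀, p.2))).card = B.card := by
        apply Finset.card_image_of_injective
        intro a b hab
        simp only [Prod.mk.injEq, true_and] at hab
        exact Prod.ext hab.1 hab.2
      have hsub : (B.image (fun p : ι × ι => (i₀, p.1, p.2))) ∪ (B.image (fun p : ι × ι => (p.1, i₀, p.2))) ⊆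
          univ.filter (fun p : ι × ι × ι => p.1 ≠ p.2.1 ∧ R p.1 p.2.2 ∧ R p.2.1 p.2.2 ∧
          P p.1 ∧ P p.2.1 ∧ P p.2.2) := by
        intro q hq
        simp only [mem_union, mem_image] at hq
        simp only [mem_filter, mem_univ, true_and]
        rcases hq with ⟨p, hp, rfl⟩ | ⟨p, hp, rfl⟩
        · obtain ⟨⟨h, h', h''⟩, hne⟩ := (hmem p).1 hp
          exact ⟨fun e => hne e.symm, htop _ _ h h' h'', h, hi₀, h', h''⟩
        · obtain ⟨⟨h, h', h''⟩, hne⟩ := (hmem p).1 hp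
          exact ⟨hne, h, htop _ _ h h' h'', h', hi₀, h''⟩
      have := Finset.card_le_card hsub
      rw [Finset.card_union_of_disjoint hdisj, hc1, hc2] at this
      omega
    omega
  · rw [if_neg hex]
    have : (univ.filter (fun p : ι × ι => R p.1 p.2 ∧ P p.1 ∧ P p.2)) = ∅ := by
      apply Finset.filter_eq_empty_iff.2
      intro p _ hp
      exact hex ⟨p.1, p.2, hp.1, hp.2.1, hp.2.2⟩
    rw [this]
    simp

/-- the pointwise inequality with the constant `k` -/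
theorem pointwiseP {ι α : Type} [Fintype ι] [DecidableEq ι] [Fintype α] [DecidableEq α] {k : ℕ}
    (hk : 1 ≤ k)
    (X : ι → Finset α) (hX : ∀ i, (X i).card = k) (R : ι → ι → Prop) [DecidableRel R]
    (h1 : ∀ i j, R i j → ¬ Disjoint (X i) (X j))
    (h2 : ∀ i j i' j', R i j → R i' j' → R i j' ∨ R i' j) :
    2 * ∑ x : α, (univ.filter (fun p : ι × ι => R p.1 p.2 ∧ x ∈ X p.1 ∧ x ∈ X p.2)).card ≤
      2 * k ^ 2 +
      ∑ x : α, (univ.filter (fun p : ι × ι × ι => p.1 ≠ p.2.1 ∧ R p.1 p.2.2 ∧ R p.2.1 p.2.2 ∧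
        x ∈ X p.1 ∧ x ∈ X p.2.1 ∧ x ∈ X p.2.2)).card +
      k * ∑ x : α, (univ.filter (fun p : ι × ι × ι => p.2.1 ≠ p.2.2 ∧ R p.1 p.2.1 ∧ R p.1 p.2.2 ∧
        x ∈ X p.1 ∧ x ∈ X p.2.1 ∧ x ∈ X p.2.2)).card := by
  have hloc : 2 * ∑ x : α, (univ.filter (fun p : ι × ι => R p.1 p.2 ∧ x ∈ X p.1 ∧ x ∈ X p.2)).card ≤
      2 * (univ.filter (fun x : α => ∃ i j, R i j ∧ x ∈ X i ∧ x ∈ X j)).card +
      ∑ x : α, (univ.filter (fun p : ι × ι × ι => p.1 ≠ p.2.1 ∧ R p.1 p.2.2 ∧ R p.2.1 p.2.2 ∧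
        x ∈ X p.1 ∧ x ∈ X p.2.1 ∧ x ∈ X p.2.2)).card +
      ∑ x : α, (univ.filter (fun p : ι × ι × ι => p.2.1 ≠ p.2.2 ∧ R p.1 p.2.1 ∧ R p.1 p.2.2 ∧
        x ∈ X p.1 ∧ x ∈ X p.2.1 ∧ x ∈ X p.2.2)).card := by
    rw [Finset.mul_sum, Finset.card_filter, Finset.mul_sum, ← Finset.sum_add_distrib,
      ← Finset.sum_add_distrib]
    exact Finset.sum_le_sum fun x _ => local_ineq (fun i => x ∈ X i) R h2
  by_cases hex : ∃ i j, R i j
  · obtain ⟨i₁, j₁, h11⟩ := hex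
    obtain ⟨i₀, -, htop⟩ := exists_top (fun _ => True) R h2 ⟨i₁, trivial⟩
    set U := univ.filter (fun j => R i₀ j) with hU
    have hmemU : ∀ j, j ∈ U ↔ R i₀ j := fun j => by rw [hU]; simp
    set b : α → ℕ := fun x => (U.filter (fun j => x ∈ X j)).card with hb
    -- Σ b = k |U|
    have hsum : ∑ x : α, b x = k * U.card := by
      have : ∑ x : α, b x = ∑ j ∈ U, (X j).card := by
        simp only [hb, Finset.card_filter]
        rw [Finset.sum_comm]
        refine Finset.sum_congr rfl fun j _ => ?_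
        rw [← Finset.card_filter]
        congr 1
        ext x; simp
      rw [this, Finset.sum_congr rfl (fun j _ => hX j), Finset.sum_const, smul_eq_mul, mul_comm]
    have hsum' : U.card ≤ ∑ x ∈ X i₀, b x := by
      have : ∑ x ∈ X i₀, b x = ∑ j ∈ U, ((X i₀).filter (fun x => x ∈ X j)).card := by
        simp only [hb, Finset.card_filter]
        rw [Finset.sum_comm]
      rw [this, Finset.card_eq_sum_ones]
      refine Finset.sum_le_sum fun j hj => ?_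
      have := h1 i₀ j ((hmemU j).1 hj)
      rw [Finset.not_disjoint_iff] at this
      obtain ⟨x, hx, hx'⟩ := this
      exact Finset.card_pos.2 ⟨x, by simpa using ⟨hx, hx'⟩⟩
    have hD : (univ.filter (fun x : α => ∃ i j, R i j ∧ x ∈ X i ∧ x ∈ X j)).card +
        ∑ x : α, (b x - 1) ≤ ∑ x : α, b x := by
      rw [Finset.card_filter, ← Finset.sum_add_distrib]
      refine Finset.sum_le_sum fun x _ => ?_
      split_ifs with hx
      · obtain ⟨i, j, hij, hxi, hxj⟩ := hx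
        have : 0 < b x := Finset.card_pos.2 ⟨j, by
          rw [mem_filter, hmemU]; exact ⟨htop i j hij trivial trivial, hxj⟩⟩
        omega
      · omega
    have hE1 : ∑ x ∈ X i₀, (b x - 1) ≤ ∑ x : α, (b x - 1) :=
      Finset.sum_le_sum_of_subset (Finset.subset_univ _)
    have hE2 : ∑ x ∈ X i₀, b x ≤ k + ∑ x ∈ X i₀, (b x - 1) := by
      rw [← hX i₀, Finset.card_eq_sum_ones, ← Finset.sum_add_distrib]
      refine Finset.sum_le_sum fun x _ => by omega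
    have hE3 : 2 * ∑ x ∈ X i₀, (b x - 1) ≤
        ∑ x : α, (univ.filter (fun p : ι × ι × ι => p.2.1 ≠ p.2.2 ∧ R p.1 p.2.1 ∧ R p.1 p.2.2 ∧
        x ∈ X p.1 ∧ x ∈ X p.2.1 ∧ x ∈ X p.2.2)).card := by
      rw [Finset.mul_sum]
      refine le_trans (Finset.sum_le_sum fun x hx => ?_) (Finset.sum_le_sum_of_subset (Finset.subset_univ (X i₀)))
      exact cherries_ge (fun i => x ∈ X i) R i₀ hx (U.filter (fun j => x ∈ X j)) (fun j hj => by
        rw [mem_filter, hmemU] at hj; exact hj)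
    set D := (univ.filter (fun x : α => ∃ i j, R i j ∧ x ∈ X i ∧ x ∈ X j)).card
    set E := ∑ x ∈ X i₀, (b x - 1)
    set C := ∑ x : α, (univ.filter (fun p : ι × ι × ι => p.2.1 ≠ p.2.2 ∧ R p.1 p.2.1 ∧ R p.1 p.2.2 ∧
        x ∈ X p.1 ∧ x ∈ X p.2.1 ∧ x ∈ X p.2.2)).card
    have hDE : D + E ≤ k * U.card := by rw [← hsum]; omega
    have hUE : U.card ≤ k + E := by omega
    have h7 : D + E ≤ k * (k + E) := le_trans hDE (Nat.mul_le_mul_left k hUE)
    obtain ⟨l, rfl⟩ : ∃ l, k = l + 1 := ⟨k - 1, by omega⟩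
    have h8 : D ≤ (l + 1) ^ 2 + l * E := by nlinarith
    have h9 : 2 * (l * E) ≤ l * C := by nlinarith
    have h10 : (l + 1) * C = l * C + C := by ring
    omega
  · have h0 : (univ.filter (fun x : α => ∃ i j, R i j ∧ x ∈ X i ∧ x ∈ X j)).card = 0 := by
      rw [Finset.card_eq_zero, Finset.filter_eq_empty_iff]
      rintro x _ ⟨i, j, h, _⟩
      exact hex ⟨i, j, h⟩
    rw [h0] at hloc
    refine le_trans hloc ?_
    have := Nat.le_mul_of_pos_left (∑ x : α, (univ.filter (fun p : ι × ι × ι => p.2.1 ≠ p.2.2 ∧ R p.1 p.2.1 ∧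
      R p.1 p.2.2 ∧ x ∈ X p.1 ∧ x ∈ X p.2.1 ∧ x ∈ X p.2.2)).card) (show 0 < k by omega)
    omega

/-- the mirror image of `pointwiseP` -/
theorem pointwiseP' {ι α : Type} [Fintype ι] [DecidableEq ι] [Fintype α] [DecidableEq α] {k : ℕ}
    (hk : 1 ≤ k)
    (X : ι → Finset α) (hX : ∀ i, (X i).card = k) (R : ι → ι → Prop) [DecidableRel R]
    (h1 : ∀ i j, R i j → ¬ Disjoint (X i) (X j))
    (h2 : ∀ i j i' j', R i j → R i' j' → R i j' ∨ R i' j) :
    2 * ∑ x : α, (univ.filter (fun p : ι × ι => R p.1 p.2 ∧ x ∈ X p.1 ∧ x ∈ X p.2)).card ≤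
      2 * k ^ 2 +
      k * ∑ x : α, (univ.filter (fun p : ι × ι × ι => p.1 ≠ p.2.1 ∧ R p.1 p.2.2 ∧ R p.2.1 p.2.2 ∧
        x ∈ X p.1 ∧ x ∈ X p.2.1 ∧ x ∈ X p.2.2)).card +
      ∑ x : α, (univ.filter (fun p : ι × ι × ι => p.2.1 ≠ p.2.2 ∧ R p.1 p.2.1 ∧ R p.1 p.2.2 ∧
        x ∈ X p.1 ∧ x ∈ X p.2.1 ∧ x ∈ X p.2.2)).card := by
  have h := pointwiseP hk X hX (fun i j => R j i)
    (fun i j hij hd => h1 j i hij hd.symm)
    (fun i j i' j' hij hij' => (h2 j i j' i' hij hij').symm)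
  have e1 : ∀ x : α, (univ.filter (fun p : ι × ι => R p.2 p.1 ∧ x ∈ X p.1 ∧ x ∈ X p.2)).card =
      (univ.filter (fun p : ι × ι => R p.1 p.2 ∧ x ∈ X p.1 ∧ x ∈ X p.2)).card := by
    intro x
    refine Finset.card_bij' (fun p _ => (p.2, p.1)) (fun p _ => (p.2, p.1)) ?_ ?_ ?_ ?_
    · intro p hp
      simp only [mem_filter, mem_univ, true_and] at hp ⊢
      exact ⟨hp.1, hp.2.2, hp.2.1⟩
    · intro p hp
      simp only [mem_filter, mem_univ, true_and] at hp ⊢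
      exact ⟨hp.1, hp.2.2, hp.2.1⟩
    · intro p _; rfl
    · intro p _; rfl
  have e2 : ∀ x : α, (univ.filter (fun p : ι × ι × ι => p.1 ≠ p.2.1 ∧ R p.2.2 p.1 ∧ R p.2.2 p.2.1 ∧
        x ∈ X p.1 ∧ x ∈ X p.2.1 ∧ x ∈ X p.2.2)).card =
      (univ.filter (fun p : ι × ι × ι => p.2.1 ≠ p.2.2 ∧ R p.1 p.2.1 ∧ R p.1 p.2.2 ∧
        x ∈ X p.1 ∧ x ∈ X p.2.1 ∧ x ∈ X p.2.2)).card := by
    intro x
    refine Finset.card_bij' (fun p _ => (p.2.2, p.1, p.2.1)) (fun p _ => (p.2.1, p.2.2, p.1)) ?_ ?_ ?_ ?_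
    · intro p hp
      simp only [mem_filter, mem_univ, true_and] at hp ⊢
      exact ⟨hp.1, hp.2.1, hp.2.2.1, hp.2.2.2.2.2, hp.2.2.2.1, hp.2.2.2.2.1⟩
    · intro p hp
      simp only [mem_filter, mem_univ, true_and] at hp ⊢
      exact ⟨hp.1, hp.2.1, hp.2.2.1, hp.2.2.2.2.1, hp.2.2.2.2.2, hp.2.2.2.1⟩
    · intro p _; rfl
    · intro p _; rfl
  have e3 : ∀ x : α, (univ.filter (fun p : ι × ι × ι => p.2.1 ≠ p.2.2 ∧ R p.2.1 p.1 ∧ R p.2.2 p.1 ∧
        x ∈ X p.1 ∧ x ∈ X p.2.1 ∧ x ∈ X p.2.2)).card =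
      (univ.filter (fun p : ι × ι × ι => p.1 ≠ p.2.1 ∧ R p.1 p.2.2 ∧ R p.2.1 p.2.2 ∧
        x ∈ X p.1 ∧ x ∈ X p.2.1 ∧ x ∈ X p.2.2)).card := by
    intro x
    refine Finset.card_bij' (fun p _ => (p.2.1, p.2.2, p.1)) (fun p _ => (p.2.2, p.1, p.2.1)) ?_ ?_ ?_ ?_
    · intro p hp
      simp only [mem_filter, mem_univ, true_and] at hp ⊢
      exact ⟨hp.1, hp.2.1, hp.2.2.1, hp.2.2.2.2.1, hp.2.2.2.2.2, hp.2.2.2.1⟩
    · intro p hp
      simp only [mem_filter, mem_univ, true_and] at hp ⊢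
      exact ⟨hp.1, hp.2.1, hp.2.2.1, hp.2.2.2.2.2, hp.2.2.2.1, hp.2.2.2.2.1⟩
    · intro p _; rfl
    · intro p _; rfl
  rw [Finset.sum_congr rfl (fun x _ => e1 x), Finset.sum_congr rfl (fun x _ => e2 x),
    Finset.sum_congr rfl (fun x _ => e3 x)] at h
  omega

end Pool.Agent.K4H58.XK
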