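import Mathlib

open Finset

namespace Pool.Agent.K4H58.XK

/-- the number of ordered triples of distinct elements -/
theorem card_triples {ι : Type} [DecidableEq ι] (C : Finset ι) :
    ((C ×ˢ C ×ˢ C).filter (fun p => p.1 ≠ p.2.1 ∧ p.1 ≠ p.2.2 ∧ p.2.1 ≠ p.2.2)).card =
      C.card * ((C.card - 1) * (C.card - 2)) := by
  rw [Finset.card_filter, Finset.sum_product]
  have h1 : ∀ a ∈ C, ∑ q ∈ C ×ˢ C, (if a ≠ q.1 ∧ a ≠ q.2 ∧ q.1 ≠ q.2 then 1 else 0) =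
      (C.card - 1) * (C.card - 2) := by
    intro a ha
    rw [Finset.sum_product]
    have h2 : ∀ b ∈ C, ∑ c ∈ C, (if a ≠ b ∧ a ≠ c ∧ b ≠ c then 1 else 0) =
        if b ∈ C.erase a then C.card - 2 else 0 := by
      intro b hb
      by_cases hab : a = b
      · subst hab
        simp
      · have hb' : b ∈ C.erase a := Finset.mem_erase.2 ⟨fun h => hab h.symm, hb⟩
        rw [if_pos hb', ← Finset.card_filter]
        have : (C.filter (fun c => a ≠ b ∧ a ≠ c ∧ b ≠ c)) = (C.erase a).erase b := by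
          ext c
          simp only [mem_filter, mem_erase]
          constructor
          · rintro ⟨h1, h2, h3, h4⟩
            exact ⟨fun h => h4 h.symm, fun h => h3 h.symm, h1⟩
          · rintro ⟨h1, h2, h3⟩
            exact ⟨h3, hab, fun h => h2 h.symm, fun h => h1 h.symm⟩
        rw [this, Finset.card_erase_of_mem hb', Finset.card_erase_of_mem ha]
        omega
    rw [Finset.sum_congr rfl h2, ← Finset.sum_filter]
    have : C.filter (fun b => b ∈ C.erase a) = C.erase a := by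
      ext b
      simp only [mem_filter, mem_erase]
      tauto
    rw [this, Finset.sum_const, Finset.card_erase_of_mem ha, smul_eq_mul]
  rw [Finset.sum_congr rfl h1, Finset.sum_const, smul_eq_mul]

/-- averaging over the three apexes -/
theorem triple_avg {ι : Type} [DecidableEq ι] (C : Finset ι) (f : ι → ι → ι → ℕ) (M : ℕ)
    (h : ∀ a ∈ C, ∀ b ∈ C, ∀ c ∈ C, a ≠ b → a ≠ c → b ≠ c →
      C.card * (f a b c + f b c a + f c a b) ≤ 6 * M) :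
    ∑ p ∈ (C ×ˢ C ×ˢ C).filter (fun p => p.1 ≠ p.2.1 ∧ p.1 ≠ p.2.2 ∧ p.2.1 ≠ p.2.2),
      f p.1 p.2.1 p.2.2 ≤ 2 * ((C.card - 1) * (C.card - 2)) * M := by
  set T := (C ×ˢ C ×ˢ C).filter (fun p => p.1 ≠ p.2.1 ∧ p.1 ≠ p.2.2 ∧ p.2.1 ≠ p.2.2) with hT
  have hmem : ∀ p : ι × ι × ι, p ∈ T ↔ (p.1 ∈ C ∧ p.2.1 ∈ C ∧ p.2.2 ∈ C) ∧
      p.1 ≠ p.2.1 ∧ p.1 ≠ p.2.2 ∧ p.2.1 ≠ p.2.2 := by
    intro p; rw [hT]; simp
  have e1 : ∑ p ∈ T, f p.2.1 p.2.2 p.1 = ∑ p ∈ T, f p.1 p.2.1 p.2.2 := by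
    refine Finset.sum_bij' (fun p _ => (p.2.1, p.2.2, p.1)) (fun p _ => (p.2.2, p.1, p.2.1))
      ?_ ?_ ?_ ?_ ?_
    · intro p hp
      rw [hmem] at hp ⊢
      obtain ⟨⟨h1, h2, h3⟩, h4, h5, h6⟩ := hp
      exact ⟨⟨h2, h3, h1⟩, h6, h4.symm, h5.symm⟩
    · intro p hp
      rw [hmem] at hp ⊢
      obtain ⟨⟨h1, h2, h3⟩, h4, h5, h6⟩ := hp
      exact ⟨⟨h3, h1, h2⟩, h5.symm, h6.symm, h4⟩
    · intro p _; rfl
    · intro p _; rfl
    · intro p _; rfl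
  have e2 : ∑ p ∈ T, f p.2.2 p.1 p.2.1 = ∑ p ∈ T, f p.1 p.2.1 p.2.2 := by
    refine Finset.sum_bij' (fun p _ => (p.2.2, p.1, p.2.1)) (fun p _ => (p.2.1, p.2.2, p.1))
      ?_ ?_ ?_ ?_ ?_
    · intro p hp
      rw [hmem] at hp ⊢
      obtain ⟨⟨h1, h2, h3⟩, h4, h5, h6⟩ := hp
      exact ⟨⟨h3, h1, h2⟩, h5.symm, h6.symm, h4⟩
    · intro p hp
      rw [hmem] at hp ⊢
      obtain ⟨⟨h1, h2, h3⟩, h4, h5, h6⟩ := hp
      exact ⟨⟨h2, h3, h1⟩, h6, h4.symm, h5.symm⟩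
    · intro p _; rfl
    · intro p _; rfl
    · intro p _; rfl
  have e3 : C.card * (3 * ∑ p ∈ T, f p.1 p.2.1 p.2.2) ≤
      C.card * ((C.card - 1) * (C.card - 2)) * (6 * M) := by
    have : 3 * ∑ p ∈ T, f p.1 p.2.1 p.2.2 =
        ∑ p ∈ T, (f p.1 p.2.1 p.2.2 + f p.2.1 p.2.2 p.1 + f p.2.2 p.1 p.2.1) := by
      rw [Finset.sum_add_distrib, Finset.sum_add_distrib, e1, e2]; ring
    rw [this, Finset.mul_sum, ← card_triples C, ← hT, ← smul_eq_mul (T.card), ← Finset.sum_const]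
    refine Finset.sum_le_sum fun p hp => ?_
    obtain ⟨⟨h1, h2, h3⟩, h4, h5, h6⟩ := (hmem p).1 hp
    exact h _ h1 _ h2 _ h3 h4 h5 h6
  rcases Nat.eq_zero_or_pos C.card with h0 | hpos
  · have : T = ∅ := by
      rw [← Finset.card_eq_zero, hT, card_triples, h0, zero_mul]
    rw [this]
    simp
  · have e4 : C.card * (3 * ∑ p ∈ T, f p.1 p.2.1 p.2.2) ≤
        C.card * (3 * (2 * ((C.card - 1) * (C.card - 2)) * M)) := by
      refine e3.trans (le_of_eq ?_)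
      ring
    have e5 := Nat.le_of_mul_le_mul_left e4 hpos
    omega

end Pool.Agent.K4H58.XK
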