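import Mathlib

/-!
# The hyperboloid algebra behind the linear radius lower bound

A point of the hyperbolic plane is written as a triple `(a, x, y)` with `a > 0` and
`a² = 1 + x² + y²`.  `G` is the Minkowski product (the `cosh` of the distance), `D` the
determinant of the two space parts.
-/

namespace K4H59.HUDG

structure Pt where
  a : ℝ
  x : ℝ
  y : ℝ
  pos : 0 < a
  eq : a ^ 2 = 1 + x ^ 2 + y ^ 2

def G (u v : Pt) : ℝ := u.a * v.a - u.x * v.x - u.y * v.y
def D (u v : Pt) : ℝ := u.x * v.y - u.y * v.x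
def InCone (w u v : Pt) : Prop := 0 < D u w * D u v ∧ 0 < D w v * D u v

theorem one_le_a (u : Pt) : 1 ≤ u.a := by
  have h := u.eq
  have hp := u.pos
  nlinarith [sq_nonneg u.x, sq_nonneg u.y]

theorem G_comm (u v : Pt) : G u v = G v u := by unfold G; ring

theorem D_anti (u v : Pt) : D u v = - D v u := by unfold D; ring

theorem G_self (u : Pt) : G u u = 1 := by
  have := u.eq
  unfold G; nlinarith

theorem G_ge_one (u v : Pt) : 1 ≤ G u v := by
  have hu := u.eq
  have hv := v.eq
  have h1 : (1 + (u.x * v.x + u.y * v.y)) ^ 2 ≤ (u.a * v.a) ^ 2 := by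
    rw [mul_pow, hu, hv]
    nlinarith [sq_nonneg (u.x - v.x), sq_nonneg (u.y - v.y), sq_nonneg (u.x * v.y - u.y * v.x)]
  have h2 : 0 ≤ u.a * v.a := (mul_pos u.pos v.pos).le
  have h3 := abs_le_of_sq_le_sq' h1 h2
  unfold G
  linarith [h3.2]

/-- Gram determinant identity. -/
theorem gram (u v : Pt) :
    1 + 2 * G u v * u.a * v.a - u.a ^ 2 - v.a ^ 2 - G u v ^ 2 = D u v ^ 2 := by
  have hu := u.eq
  have hv := v.eq
  have hx : u.x ^ 2 = u.a ^ 2 - 1 - u.y ^ 2 := by linarith
  have hy : v.x ^ 2 = v.a ^ 2 - 1 - v.y ^ 2 := by linarith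
  unfold G D
  have e1 : (u.a * v.a - u.x * v.x - u.y * v.y) ^ 2
      = u.a ^ 2 * v.a ^ 2 + u.x ^ 2 * v.x ^ 2 + u.y ^ 2 * v.y ^ 2
        - 2 * u.a * v.a * (u.x * v.x + u.y * v.y) + 2 * (u.x * v.x * (u.y * v.y)) := by ring
  have e2 : (u.x * v.y - u.y * v.x) ^ 2 =
      u.x ^ 2 * v.y ^ 2 + u.y ^ 2 * v.x ^ 2 - 2 * (u.x * v.x * (u.y * v.y)) := by ring
  rw [e1, e2]
  have e3 : u.a ^ 2 * v.a ^ 2 = (1 + u.x ^ 2 + u.y ^ 2) * (1 + v.x ^ 2 + v.y ^ 2) := by
    rw [hu, hv]
  nlinarith [e3]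

theorem G_gt_one {u v : Pt} (h : D u v ≠ 0) : 1 < G u v := by
  rcases (G_ge_one u v).lt_or_eq with h1 | h1
  · exact h1
  · exfalso
    have g := gram u v
    rw [← h1] at g
    have hp : 0 < D u v ^ 2 := by positivity
    have : 0 ≤ (u.a - v.a) ^ 2 := sq_nonneg _
    nlinarith

/-- Cone coordinates. -/
theorem InCone.coords {w u v : Pt} (h : InCone w u v) :
    ∃ l m : ℝ, 0 < l ∧ 0 < m ∧ w.x = l * u.x + m * v.x ∧ w.y = l * u.y + m * v.y := by
  obtain ⟨h1, h2⟩ := h
  have hd : D u v ≠ 0 := by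
    intro h0; rw [h0] at h1; simp at h1
  refine ⟨D w v / D u v, D u w / D u v, ?_, ?_, ?_, ?_⟩
  · rw [← mul_div_mul_right _ _ hd]
    exact div_pos h2 (mul_self_pos.2 hd)
  · rw [← mul_div_mul_right _ _ hd]
    exact div_pos h1 (mul_self_pos.2 hd)
  · field_simp
    unfold D; ring
  · field_simp
    unfold D; ring

theorem InCone.symm {w u v : Pt} (h : InCone w u v) : InCone w v u := by
  obtain ⟨h1, h2⟩ := h
  refine ⟨?_, ?_⟩
  · rw [D_anti v w, D_anti v u]; linarith
  · rw [D_anti w u, D_anti v u]; linarith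

/-- Lemma T: a point of the (filled) triangle `c, u, v` is close to `u` and to `v`. -/
theorem lemT {w u v : Pt} {l m C : ℝ} (hl : 0 ≤ l) (hm : 0 ≤ m)
    (hx : w.x = l * u.x + m * v.x) (hy : w.y = l * u.y + m * v.y)
    (hk : l * u.a + m * v.a ≤ w.a) (hG : G u v ≤ C) (hu : u.a ≤ C) :
    G w u ≤ C := by
  set k := w.a - l * u.a - m * v.a with hkdef
  have hk0 : 0 ≤ k := by rw [hkdef]; linarith
  have hwa : w.a = k + l * u.a + m * v.a := by rw [hkdef]; ring
  have e1 : G w u = k * u.a + l + m * G u v := by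
    have := u.eq
    unfold G
    rw [hx, hy, hwa]
    linear_combination l * this
  have e2 : 1 = k ^ 2 + l ^ 2 + m ^ 2 + 2 * k * l * u.a + 2 * k * m * v.a + 2 * l * m * G u v := by
    have h1 := u.eq
    have h2 := v.eq
    have h3 := w.eq
    have : k ^ 2 + l ^ 2 + m ^ 2 + 2 * k * l * u.a + 2 * k * m * v.a + 2 * l * m * G u v
      = w.a ^ 2 - w.x ^ 2 - w.y ^ 2 := by
      unfold G
      rw [hx, hy, hwa]
      linear_combination (-l^2) * h1 + (-m^2) * h2
    rw [this, h3]; ring
  have g1 := G_ge_one u v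
  have a1 := one_le_a u
  have a2 := one_le_a v
  have hkl : 0 ≤ k * l := mul_nonneg hk0 hl
  have hkm : 0 ≤ k * m := mul_nonneg hk0 hm
  have hlm : 0 ≤ l * m := mul_nonneg hl hm
  have h3 : (k + l + m) ^ 2 ≤ 1 := by
    nlinarith [mul_nonneg hkl (sub_nonneg.2 a1), mul_nonneg hkm (sub_nonneg.2 a2),
      mul_nonneg hlm (sub_nonneg.2 g1)]
  have h4 : k + l + m ≤ 1 := by
    by_contra hcon
    push Not at hcon
    nlinarith
  have hC : 1 ≤ C := le_trans g1 hG
  rw [e1]
  nlinarith [mul_nonneg hk0 (sub_nonneg.2 hu), mul_nonneg hl (sub_nonneg.2 hC),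
    mul_nonneg hm (sub_nonneg.2 hG), mul_nonneg (sub_nonneg.2 h4) (by linarith : (0:ℝ) ≤ C)]

/-- Crossing lemma. -/
theorem crossing {u v x y : Pt} {t l m C : ℝ} (ht0 : 0 < t) (ht1 : t < 1) (hl : 0 ≤ l)
    (hm : 0 ≤ m)
    (ha : (1 - t) * x.a + t * y.a = l * u.a + m * v.a)
    (hx : (1 - t) * x.x + t * y.x = l * u.x + m * v.x)
    (hy : (1 - t) * x.y + t * y.y = l * u.y + m * v.y)
    (hxy : G x y ≤ C) (huv : G u v ≤ C) (h1 : C < G u x) (h2 : C < G v y) : False := by
  have e1 : l * G u x + m * G v x = (1 - t) + t * G x y := by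
    have h := x.eq
    unfold G
    linear_combination (-x.a) * ha + x.x * hx + x.y * hy + (1 - t) * h
  have e2 : (1 - t) * G x v + t * G y v = l * G u v + m := by
    have h := v.eq
    unfold G
    linear_combination (v.a) * ha - v.x * hx - v.y * hy + m * h
  have g1 := G_ge_one v x
  have g2 := G_ge_one x v
  rw [G_comm v y] at h2
  nlinarith [mul_nonneg hl (sub_nonneg.2 h1.le), mul_nonneg hm (sub_nonneg.2 g1),
    mul_nonneg ht0.le (sub_nonneg.2 hxy), mul_nonneg (sub_nonneg.2 ht1.le) (sub_nonneg.2 g2),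
    mul_pos ht0 (sub_pos.2 h2), mul_nonneg hl (sub_nonneg.2 huv)]

/-- Lemma M. -/
theorem lemM {m u v : Pt} {l μ : ℝ} (hl : 0 < l) (hμ : 0 < μ)
    (hx : m.x = l * u.x + μ * v.x) (hy : m.y = l * u.y + μ * v.y)
    (hk : m.a ≤ l * u.a + μ * v.a) (hG : G u v < G m v) : u.a < m.a := by
  set k := l * u.a + μ * v.a - m.a with hkdef
  have hk0 : 0 ≤ k := by rw [hkdef]; linarith
  -- everything paired with n = m - u
  have gmu := G_ge_one m u
  have hu := u.eq
  have hv := v.eq
  have hm := m.eq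
  have hma : m.a = l * u.a + μ * v.a - k := by rw [hkdef]; ring
  -- G(n,n) = 2 - 2 G(m,u)
  have key1 : k * (m.a - u.a) = (l - 1) * (G m u - 1) + μ * (G m v - G u v) + 2 * (G m u - 1) := by
    unfold G
    linear_combination (m.a - u.a) * hkdef - (m.x - u.x) * hx - (m.y - u.y) * hy - hm
      - l * hu
  have hpos : 0 < k * (m.a - u.a) := by
    have h3 : 0 < μ * (G m v - G u v) := mul_pos hμ (sub_pos.2 hG)
    have h4 : 0 ≤ G m u - 1 := by linarith
    rw [key1]
    nlinarith [mul_nonneg hl.le h4]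
  have : 0 < m.a - u.a := by
    by_contra hcon
    push Not at hcon
    nlinarith
  linarith

/-- Growth lemma. -/
theorem growth {w u v : Pt} {C : ℝ} (hw : InCone w u v) (huC : u.a ≤ C) (hvC : v.a ≤ C)
    (huv : G u v ≤ C) (h1 : C < G w u) (h2 : C < G w v) :
    C * (u.a + v.a) ≤ (1 + C) * w.a := by
  obtain ⟨l, m, hl, hm, hx, hy⟩ := hw.coords
  have hD : D u v ≠ 0 := by
    intro h0
    have := hw.1
    rw [h0] at this; simp at this
  have hG1 : 1 < G u v := G_gt_one hD
  set k := l * u.a + m * v.a - w.a with hkdef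
  have hk0 : 0 < k := by
    by_contra hcon
    push Not at hcon
    have := lemT hl.le hm.le hx hy (by linarith) huv huC
    linarith
  have hu := u.eq
  have hv := v.eq
  have i1 : G w u = l + m * G u v - k * u.a := by
    unfold G
    linear_combination (-u.a) * hkdef - u.x * hx - u.y * hy + l * hu
  have i2 : G w v = l * G u v + m - k * v.a := by
    unfold G
    linear_combination (-v.a) * hkdef - v.x * hx - v.y * hy + m * hv
  have hwa : w.a = l * u.a + m * v.a - k := by rw [hkdef]; ring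
  have gr := gram u v
  have a1 := one_le_a u
  have a2 := one_le_a v
  have hC : 1 < C := lt_of_lt_of_le hG1 huv
  set A := u.a with hA
  set B := v.a with hB
  set g := G u v with hg
  clear_value A B g k
  by_cases c1 : 0 ≤ g * B - A
  · by_cases c2 : 0 ≤ g * A - B
    · -- main case
      have j1 : (g * B - A) * (C + k * A) ≤ (g * B - A) * (l + m * g) :=
        mul_le_mul_of_nonneg_left (by linarith) c1
      have j2 : (g * A - B) * (C + k * B) ≤ (g * A - B) * (l * g + m) :=
        mul_le_mul_of_nonneg_left (by linarith) c2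
      have j3 : (g - 1) * (C * (A + B)) ≤ (g - 1) * ((g + 1) * w.a) := by
        have e : (g - 1) * ((g + 1) * w.a) = (g * B - A) * (l + m * g)
            + (g * A - B) * (l * g + m) - (g ^ 2 - 1) * k := by
          rw [hwa]; ring
        have e2 : 0 ≤ k * (1 + 2 * g * A * B - A ^ 2 - B ^ 2 - g ^ 2) := by
          rw [gr]; positivity
        rw [e]
        nlinarith [e2, j1, j2]
      have j4 : C * (A + B) ≤ (g + 1) * w.a := le_of_mul_le_mul_left j3 (by linarith)
      have hwpos := w.pos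
      nlinarith [mul_nonneg (sub_nonneg.2 huv) hwpos.le]
    · push Not at c2
      -- g * A < B : use (i) times A
      have j1 : A * (C + k * A) ≤ A * (l + m * g) :=
        mul_le_mul_of_nonneg_left (by linarith) (by linarith)
      have j2 : A * C ≤ w.a := by
        rw [hwa]
        nlinarith [mul_pos hm (by linarith : 0 < B - g * A), mul_nonneg hk0.le
          (by nlinarith : 0 ≤ A ^ 2 - 1)]
      nlinarith [mul_nonneg (by linarith : (0:ℝ) ≤ C) (sub_nonneg.2 hvC),
        mul_le_mul_of_nonneg_left j2 (by linarith : (0:ℝ) ≤ 1 + C),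
        mul_nonneg (mul_nonneg (by linarith : (0:ℝ) ≤ C) (by linarith : (0:ℝ) ≤ C))
          (sub_nonneg.2 a1)]
  · push Not at c1
    have j1 : B * (C + k * B) ≤ B * (l * g + m) :=
      mul_le_mul_of_nonneg_left (by linarith) (by linarith)
    have j2 : B * C ≤ w.a := by
      rw [hwa]
      nlinarith [mul_pos hl (by linarith : 0 < A - g * B), mul_nonneg hk0.le
        (by nlinarith : 0 ≤ B ^ 2 - 1)]
    nlinarith [mul_nonneg (by linarith : (0:ℝ) ≤ C) (sub_nonneg.2 huC),
      mul_le_mul_of_nonneg_left j2 (by linarith : (0:ℝ) ≤ 1 + C),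
      mul_nonneg (mul_nonneg (by linarith : (0:ℝ) ≤ C) (by linarith : (0:ℝ) ≤ C))
        (sub_nonneg.2 a2)]

/-- Lemma X (no escape): two disjoint edges `uv`, `xy` of a triangle-free unit disk graph all of
whose vertices are close to the centre; if `x` lies in the cone of `uv`, so does `y`. -/
theorem noEscape {u v x y : Pt} {C : ℝ} (hu : u.a ≤ C) (hv : v.a ≤ C) (hx : x.a ≤ C) (hy : y.a ≤ C)
    (huv : G u v ≤ C) (hxy : G x y ≤ C)
    (t1 : ¬ (G u x ≤ C ∧ G v x ≤ C)) (t2 : ¬ (G u y ≤ C ∧ G v y ≤ C))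
    (t3 : ¬ (G u x ≤ C ∧ G u y ≤ C)) (t4 : ¬ (G v x ≤ C ∧ G v y ≤ C))
    (d1 : D u y ≠ 0) (d2 : D y v ≠ 0)
    (hin : InCone x u v) : InCone y u v := by
  have hD : D u v ≠ 0 := by
    intro h0
    have := hin.1
    rw [h0] at this; simp at this
  obtain ⟨l, m, hl, hm, hxx, hxy'⟩ := hin.coords
  -- coordinates of y
  set al := D y v / D u v with hal
  set be := D u y / D u v with hbe
  have hyx : y.x = al * u.x + be * v.x := by
    rw [hal, hbe]; field_simp; unfold D; ring
  have hyy : y.y = al * u.y + be * v.y := by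
    rw [hal, hbe]; field_simp; unfold D; ring
  have hal0 : al ≠ 0 := div_ne_zero d2 hD
  have hbe0 : be ≠ 0 := div_ne_zero d1 hD
  by_contra hcon
  have hneg : al < 0 ∨ be < 0 := by
    by_contra hh
    push Not at hh
    obtain ⟨h1, h2⟩ := hh
    have h1' : 0 < al := lt_of_le_of_ne h1 (Ne.symm hal0)
    have h2' : 0 < be := lt_of_le_of_ne h2 (Ne.symm hbe0)
    apply hcon
    have hDD : 0 < D u v * D u v := mul_self_pos.2 hD
    refine ⟨?_, ?_⟩
    · have e : D u y = be * D u v := by rw [hbe]; field_simp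
      rw [e, mul_assoc]; exact mul_pos h2' hDD
    · have e : D y v = al * D u v := by rw [hal]; field_simp
      rw [e, mul_assoc]; exact mul_pos h1' hDD
  set kx := l * u.a + m * v.a - x.a with hkx
  have hkx0 : 0 < kx := by
    by_contra hc
    push Not at hc
    have a1 := lemT hl.le hm.le hxx hxy' (by linarith) huv hu
    have a2 := lemT (w := x) (u := v) (v := u) hm.le hl.le (by linarith) (by linarith)
      (by linarith) (by rw [G_comm]; exact huv) hv
    exact t1 ⟨by rw [G_comm]; exact a1, by rw [G_comm]; exact a2⟩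
  set ky := al * u.a + be * v.a - y.a with hky
  -- the three functions
  let g : ℝ → ℝ := fun t => min (min ((1 - t) * l + t * al) ((1 - t) * m + t * be))
    ((1 - t) * kx + t * ky)
  have hg : Continuous g := by fun_prop
  have g0 : 0 < g 0 := by
    simp only [g, sub_zero, one_mul, zero_mul, add_zero]
    exact lt_min (lt_min hl hm) hkx0
  have g1 : g 1 < 0 := by
    simp only [g, sub_self, one_mul, zero_mul, zero_add]
    rcases hneg with h | h
    · exact lt_of_le_of_lt (le_trans (min_le_left _ _) (min_le_left _ _)) h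
    · exact lt_of_le_of_lt (le_trans (min_le_left _ _) (min_le_right _ _)) h
  obtain ⟨t, ⟨ht0, ht1⟩, htg⟩ := intermediate_value_Icc' (zero_le_one) hg.continuousOn
    (show (0:ℝ) ∈ Set.Icc (g 1) (g 0) from ⟨g1.le, g0.le⟩)
  have ht0' : 0 < t := by
    rcases ht0.lt_or_eq with h | h
    · exact h
    · rw [← h] at htg; linarith
  have ht1' : t < 1 := by
    rcases ht1.lt_or_eq with h | h
    · exact h
    · rw [h] at htg; linarith
  set f1 := (1 - t) * l + t * al with hf1
  set f2 := (1 - t) * m + t * be with hf2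
  set f3 := (1 - t) * kx + t * ky with hf3
  have htg' : min (min f1 f2) f3 = 0 := htg
  have p1 : 0 ≤ f1 := by rw [← htg']; exact le_trans (min_le_left _ _) (min_le_left _ _)
  have p2 : 0 ≤ f2 := by rw [← htg']; exact le_trans (min_le_left _ _) (min_le_right _ _)
  have p3 : 0 ≤ f3 := by rw [← htg']; exact min_le_right _ _
  have za : (1 - t) * x.a + t * y.a = f1 * u.a + f2 * v.a - f3 := by
    rw [hf1, hf2, hf3, hkx, hky]; ring
  have zx : (1 - t) * x.x + t * y.x = f1 * u.x + f2 * v.x := by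
    rw [hf1, hf2, hxx, hyx]; ring
  have zy : (1 - t) * x.y + t * y.y = f1 * u.y + f2 * v.y := by
    rw [hf1, hf2, hxy', hyy]; ring
  have zpos : 0 < (1 - t) * x.a + t * y.a := by
    have := x.pos; have := y.pos
    have h1 : 0 < 1 - t := by linarith
    positivity
  have hcases : f1 = 0 ∨ f2 = 0 ∨ f3 = 0 := by
    rcases min_choice (min f1 f2) f3 with h | h
    · rw [h] at htg'
      rcases min_choice f1 f2 with h' | h'
      · rw [h'] at htg'; exact Or.inl htg'
      · rw [h'] at htg'; exact Or.inr (Or.inl htg')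
    · rw [h] at htg'; exact Or.inr (Or.inr htg')
  rcases hcases with h | h | h
  · -- v in the triangle c, x, y
    rw [h] at za zx zy
    have hf2pos : 0 < f2 := by
      rcases p2.lt_or_eq with h' | h'
      · exact h'
      · exfalso; rw [← h'] at za; simp at za; linarith
    have q1 : v.x = ((1 - t) / f2) * x.x + (t / f2) * y.x := by
      field_simp; linarith
    have q2 : v.y = ((1 - t) / f2) * x.y + (t / f2) * y.y := by
      field_simp; linarith
    have q3 : ((1 - t) / f2) * x.a + (t / f2) * y.a ≤ v.a := by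
      have : ((1 - t) / f2) * x.a + (t / f2) * y.a = ((1 - t) * x.a + t * y.a) / f2 := by
        field_simp
      rw [this, div_le_iff₀ hf2pos, za]; linarith
    have hnn1 : 0 ≤ (1 - t) / f2 := div_nonneg (by linarith) hf2pos.le
    have hnn2 : 0 ≤ t / f2 := div_nonneg (by linarith) hf2pos.le
    have b1 := lemT hnn1 hnn2 q1 q2 q3 hxy hx
    have b2 := lemT (w := v) (u := y) (v := x) hnn2 hnn1 (by linarith) (by linarith)
      (by linarith) (by rw [G_comm]; exact hxy) hy
    exact t4 ⟨b1, b2⟩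
  · -- u in the triangle c, x, y
    rw [h] at za zx zy
    have hf1pos : 0 < f1 := by
      rcases p1.lt_or_eq with h' | h'
      · exact h'
      · exfalso; rw [← h'] at za; simp at za; linarith
    have q1 : u.x = ((1 - t) / f1) * x.x + (t / f1) * y.x := by
      field_simp; linarith
    have q2 : u.y = ((1 - t) / f1) * x.y + (t / f1) * y.y := by
      field_simp; linarith
    have q3 : ((1 - t) / f1) * x.a + (t / f1) * y.a ≤ u.a := by
      have : ((1 - t) / f1) * x.a + (t / f1) * y.a = ((1 - t) * x.a + t * y.a) / f1 := by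
        field_simp
      rw [this, div_le_iff₀ hf1pos, za]; linarith
    have hnn1 : 0 ≤ (1 - t) / f1 := div_nonneg (by linarith) hf1pos.le
    have hnn2 : 0 ≤ t / f1 := div_nonneg (by linarith) hf1pos.le
    have b1 := lemT hnn1 hnn2 q1 q2 q3 hxy hx
    have b2 := lemT (w := u) (u := y) (v := x) hnn2 hnn1 (by linarith) (by linarith)
      (by linarith) (by rw [G_comm]; exact hxy) hy
    exact t3 ⟨b1, b2⟩
  · -- crossing
    rw [h] at za
    have za' : (1 - t) * x.a + t * y.a = f1 * u.a + f2 * v.a := by linarith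
    have hcase : (C < G u x ∧ C < G v y) ∨ (C < G v x ∧ C < G u y) := by
      by_cases c1 : G u x ≤ C
      · right
        exact ⟨not_le.1 fun h => t1 ⟨c1, h⟩, not_le.1 fun h => t3 ⟨c1, h⟩⟩
      · by_cases c2 : G v y ≤ C
        · right
          exact ⟨not_le.1 fun h => t4 ⟨h, c2⟩, not_le.1 fun h => t2 ⟨h, c2⟩⟩
        · left
          exact ⟨not_le.1 c1, not_le.1 c2⟩
    rcases hcase with ⟨c1, c2⟩ | ⟨c1, c2⟩
    · exact crossing ht0' ht1' p1 p2 za' zx zy hxy huv c1 c2
    · exact crossing (u := v) (v := u) ht0' ht1' p2 p1 (by linarith) (by linarith) (by linarith)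
        hxy (by rw [G_comm]; exact huv) c1 c2

/-- (F1): the vertex closest to the centre is in no cone of a disjoint edge. -/
theorem min_notin {m u v : Pt} {C : ℝ} (huv : G u v ≤ C) (hu : u.a ≤ C) (hv : v.a ≤ C)
    (t : ¬ (G m u ≤ C ∧ G m v ≤ C)) (m1 : m.a ≤ u.a) (m2 : m.a ≤ v.a) : ¬ InCone m u v := by
  intro hin
  obtain ⟨l, μ, hl, hμ, hx, hy⟩ := hin.coords
  have hk : m.a ≤ l * u.a + μ * v.a := by
    by_contra hc
    push Not at hc
    have a1 := lemT hl.le hμ.le hx hy hc.le huv hu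
    have a2 := lemT (w := m) (u := v) (v := u) hμ.le hl.le (by linarith) (by linarith)
      (by linarith) (by rw [G_comm]; exact huv) hv
    exact t ⟨a1, a2⟩
  by_cases c : G m u ≤ C
  · have c2 : C < G m v := not_le.1 fun h => t ⟨c, h⟩
    have := lemM hl hμ hx hy hk (lt_of_le_of_lt huv c2)
    linarith
  · push Not at c
    have := lemM (m := m) (u := v) (v := u) hμ hl (by linarith) (by linarith) (by linarith)
      (lt_of_le_of_lt (by rw [G_comm]; exact huv) c)
    linarith

/-- Plücker relation. -/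
theorem plucker (a b c d : Pt) : D a b * D c d - D a c * D b d + D a d * D b c = 0 := by
  unfold D; ring

theorem mul_pos_iff'' {a b : ℝ} (ha : a ≠ 0) (hb : b ≠ 0) : 0 < a * b ↔ (0 < a ↔ 0 < b) := by
  rcases lt_or_gt_of_ne ha with h1 | h1 <;> rcases lt_or_gt_of_ne hb with h2 | h2
  · simp [mul_pos_of_neg_of_neg h1 h2, h1.not_gt, h2.not_gt]
  · simp [(mul_neg_of_neg_of_pos h1 h2).not_gt, h1.not_gt, h2]
  · simp [(mul_neg_of_pos_of_neg h1 h2).not_gt, h2.not_gt, h1]
  · simp [mul_pos h1 h2, h1, h2]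

theorem D_ne_symm {u v : Pt} (h : D u v ≠ 0) : D v u ≠ 0 := by
  rw [D_anti]; simpa using h

theorem D_pos_anti {u v : Pt} (h : D u v ≠ 0) : 0 < D v u ↔ ¬ 0 < D u v := by
  rw [D_anti v u]
  rcases lt_or_gt_of_ne h with h1 | h1
  · simp [h1, h1.not_gt]
  · simp [h1, h1.le]

theorem inCone_iff {w u v : Pt} (h1 : D u w ≠ 0) (h2 : D w v ≠ 0) (h3 : D u v ≠ 0) :
    InCone w u v ↔ ((0 < D u w ↔ 0 < D u v) ∧ (0 < D w v ↔ 0 < D u v)) := by
  unfold InCone
  rw [mul_pos_iff'' h1 h3, mul_pos_iff'' h2 h3]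

/-- Sign form of the Plücker relation. -/
theorem plucker_sign {a b c d : Pt} (ab : D a b ≠ 0) (ac : D a c ≠ 0) (ad : D a d ≠ 0)
    (bc : D b c ≠ 0) (bd : D b d ≠ 0) (cd : D c d ≠ 0) :
    ¬ ((0 < D a b ↔ 0 < D c d) ∧ ¬ (0 < D a c ↔ 0 < D b d) ∧ (0 < D a d ↔ 0 < D b c)) ∧
    ¬ (¬ (0 < D a b ↔ 0 < D c d) ∧ (0 < D a c ↔ 0 < D b d) ∧ ¬ (0 < D a d ↔ 0 < D b c)) := by
  rw [← mul_pos_iff'' ab cd, ← mul_pos_iff'' ac bd, ← mul_pos_iff'' ad bc]
  have h := plucker a b c d
  have n2 : D a c * D b d ≠ 0 := mul_ne_zero ac bd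
  refine ⟨?_, ?_⟩
  · rintro ⟨h1, h2, h3⟩
    push Not at h2
    linarith
  · rintro ⟨h1, h2, h3⟩
    push Not at h1 h3
    linarith

/-- Lemma S. -/
theorem lemS {m a x y : Pt} (ma : D m a ≠ 0) (mx : D m x ≠ 0) (my : D m y ≠ 0)
    (ax : D a x ≠ 0) (ay : D a y ≠ 0) (xy : D x y ≠ 0)
    (hx : InCone x m a) (hy : ¬ InCone y m a) : InCone m x y ∨ InCone a x y := by
  have pl := plucker_sign ma mx my ax ay xy
  rw [inCone_iff mx (D_ne_symm ax) ma, D_pos_anti ax] at hx
  rw [inCone_iff my (D_ne_symm ay) ma, D_pos_anti ay] at hy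
  rw [inCone_iff (D_ne_symm mx) my xy, inCone_iff (D_ne_symm ax) ay xy, D_pos_anti mx,
    D_pos_anti ax]
  revert hx hy pl
  generalize (0 < D m a) = p1
  generalize (0 < D m x) = p2
  generalize (0 < D m y) = p3
  generalize (0 < D a x) = p4
  generalize (0 < D a y) = p5
  generalize (0 < D x y) = p6
  by_cases p1 <;> by_cases p2 <;> by_cases p3 <;> by_cases p4 <;> by_cases p5 <;>
    by_cases p6 <;> simp [*]

/-- Lemma R. -/
theorem lemR {m a b s : Pt} (ma : D m a ≠ 0) (mb : D m b ≠ 0) (ms : D m s ≠ 0)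
    (ab : D a b ≠ 0) (as : D a s ≠ 0) (bs : D b s ≠ 0)
    (h1 : ¬ InCone m a b) (h2 : InCone s m a ↔ InCone b m a)
    (h3 : InCone s m b ↔ InCone a m b) : InCone s a b := by
  have pl := plucker_sign ma mb ms ab as bs
  rw [inCone_iff (D_ne_symm ma) mb ab, D_pos_anti ma] at h1
  rw [inCone_iff ms (D_ne_symm as) ma, inCone_iff mb (D_ne_symm ab) ma, D_pos_anti as,
    D_pos_anti ab] at h2
  rw [inCone_iff ms (D_ne_symm bs) mb, inCone_iff ma ab mb, D_pos_anti bs] at h3
  rw [inCone_iff as (D_ne_symm bs) ab, D_pos_anti bs]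
  revert h1 h2 h3 pl
  generalize (0 < D m a) = p1
  generalize (0 < D m b) = p2
  generalize (0 < D m s) = p3
  generalize (0 < D a b) = p4
  generalize (0 < D a s) = p5
  generalize (0 < D b s) = p6
  by_cases p1 <;> by_cases p2 <;> by_cases p3 <;> by_cases p4 <;> by_cases p5 <;>
    by_cases p6 <;> simp [*]

end K4H59.HUDG
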