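import Mathlib
import Pool.Agent.K4H59.HUDGAlg

/-!
# The ladder argument
-/

namespace K4H59.HUDG

/-- Adjacency in the (infinite) ladder. -/
def ladj (p q : ℕ × Bool) : Prop :=
  (p.1 = q.1 ∧ p.2 ≠ q.2) ∨ (p.2 = q.2 ∧ (p.1 = q.1 + 1 ∨ q.1 = p.1 + 1))

theorem ladj_symm {p q : ℕ × Bool} (h : ladj p q) : ladj q p := by
  rcases h with ⟨h1, h2⟩ | ⟨h1, h2⟩
  · exact Or.inl ⟨h1.symm, h2.symm⟩
  · exact Or.inr ⟨h1.symm, h2.symm⟩

theorem ladj_ne {p q : ℕ × Bool} (h : ladj p q) : p ≠ q := by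
  rintro rfl
  rcases h with ⟨h1, h2⟩ | ⟨h1, h2⟩
  · exact h2 rfl
  · omega

theorem triangle_free {p q r : ℕ × Bool} (h1 : ladj p q) (h2 : ladj p r) (h3 : ladj q r) :
    False := by
  obtain ⟨i, s⟩ := p
  obtain ⟨j, t⟩ := q
  obtain ⟨k, w⟩ := r
  unfold ladj at *
  cases s <;> cases t <;> cases w <;> simp at h1 h2 h3 <;> omega

structure Ladder (P : ℕ × Bool → Pt) (L : ℕ) (C : ℝ) (s₀ : Bool) : Prop where
  adj : ∀ p q, p.1 ≤ L → q.1 ≤ L → p ≠ q → (G (P p) (P q) ≤ C ↔ ladj p q)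
  close : ∀ p, p.1 ≤ L → (P p).a ≤ C
  gen : ∀ p q, p.1 ≤ L → q.1 ≤ L → p ≠ q → D (P p) (P q) ≠ 0
  min : ∀ p, p.1 ≤ L → (P (0, s₀)).a ≤ (P p).a

variable {P : ℕ × Bool → Pt} {L : ℕ} {C : ℝ} {s₀ : Bool}

theorem Ladder.one_le (h : Ladder P L C s₀) : 1 ≤ C :=
  le_trans (one_le_a _) (h.close (0, s₀) (Nat.zero_le _))

theorem Ladder.F1 (h : Ladder P L C s₀) {u v : ℕ × Bool} (hu : u.1 ≤ L) (hv : v.1 ≤ L)
    (huv : ladj u v) (mu : u ≠ (0, s₀)) (mv : v ≠ (0, s₀)) :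
    ¬ InCone (P (0, s₀)) (P u) (P v) := by
  have h0 : ((0, s₀) : ℕ × Bool).1 ≤ L := Nat.zero_le _
  refine min_notin (C := C) ((h.adj u v hu hv (ladj_ne huv)).2 huv) (h.close u hu) (h.close v hv)
    ?_ (h.min u hu) (h.min v hv)
  rintro ⟨h1, h2⟩
  exact triangle_free ((h.adj _ u h0 hu (Ne.symm mu)).1 h1)
    ((h.adj _ v h0 hv (Ne.symm mv)).1 h2) huv

theorem Ladder.X (h : Ladder P L C s₀) {u v x y : ℕ × Bool} (hu : u.1 ≤ L) (hv : v.1 ≤ L)
    (hx : x.1 ≤ L) (hy : y.1 ≤ L) (huv : ladj u v) (hxy : ladj x y)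
    (n1 : u ≠ x) (n2 : u ≠ y) (n3 : v ≠ x) (n4 : v ≠ y)
    (hin : InCone (P x) (P u) (P v)) : InCone (P y) (P u) (P v) := by
  refine noEscape (C := C) (h.close u hu) (h.close v hv) (h.close x hx) (h.close y hy)
    ((h.adj u v hu hv (ladj_ne huv)).2 huv) ((h.adj x y hx hy (ladj_ne hxy)).2 hxy)
    ?_ ?_ ?_ ?_ (h.gen _ _ hu hy n2) (h.gen _ _ hy hv n4.symm) hin
  · rintro ⟨a, b⟩
    exact triangle_free huv ((h.adj _ _ hu hx n1).1 a) ((h.adj _ _ hv hx n3).1 b)
  · rintro ⟨a, b⟩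
    exact triangle_free huv ((h.adj _ _ hu hy n2).1 a) ((h.adj _ _ hv hy n4).1 b)
  · rintro ⟨a, b⟩
    exact triangle_free ((h.adj _ _ hu hx n1).1 a) ((h.adj _ _ hu hy n2).1 b) hxy
  · rintro ⟨a, b⟩
    exact triangle_free ((h.adj _ _ hv hx n3).1 a) ((h.adj _ _ hv hy n4).1 b) hxy

theorem Ladder.F2 (h : Ladder P L C s₀) {i : ℕ} {s : Bool} (hi : i ≤ L) (hi1 : 1 ≤ i)
    {u v : ℕ × Bool} (hu : u.1 ≤ L) (hv : v.1 ≤ L) (huv : ladj u v)
    (hu' : i < u.1 ∨ u = (i, !s)) (hv' : i < v.1 ∨ v = (i, !s)) :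
    ¬ InCone (P (i, s)) (P u) (P v) := by
  intro hin
  have ne1 : ∀ k t, k < i → u ≠ (k, t) := by
    rintro k t hk rfl
    rcases hu' with h' | h'
    · simp at h'; omega
    · simp at h'; omega
  have ne2 : ∀ k t, k < i → v ≠ (k, t) := by
    rintro k t hk rfl
    rcases hv' with h' | h'
    · simp at h'; omega
    · simp at h'; omega
  have ne3 : u ≠ (i, s) := by
    rintro rfl
    rcases hu' with h' | h'
    · simp at h'
    · simp at h'
  have ne4 : v ≠ (i, s) := by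
    rintro rfl
    rcases hv' with h' | h'
    · simp at h'
    · simp at h'
  have key : ∀ k, k ≤ i → InCone (P (i - k, s)) (P u) (P v) := by
    intro k
    induction k with
    | zero => intro _; simpa using hin
    | succ k ih =>
      intro hk
      have ih' := ih (by omega)
      have n1 : u ≠ (i - k, s) := by
        rcases Nat.eq_zero_or_pos k with h0 | h0
        · subst h0; simpa using ne3
        · exact ne1 _ _ (by omega)
      have n3 : v ≠ (i - k, s) := by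
        rcases Nat.eq_zero_or_pos k with h0 | h0
        · subst h0; simpa using ne4
        · exact ne2 _ _ (by omega)
      have hadj : ladj (i - k, s) (i - (k + 1), s) := Or.inr ⟨rfl, Or.inl (by simp; omega)⟩
      exact h.X (x := (i - k, s)) (y := (i - (k + 1), s)) hu hv (by simp; omega)
        (by simp; omega) huv hadj n1 (ne1 _ _ (by omega)) n3 (ne2 _ _ (by omega)) ih'
  have h0 := key i le_rfl
  simp only [Nat.sub_self] at h0
  have hm1 : u ≠ (0, s₀) := ne1 _ _ (by omega)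
  have hm2 : v ≠ (0, s₀) := ne2 _ _ (by omega)
  by_cases hs : s = s₀
  · subst hs
    exact h.F1 hu hv huv hm1 hm2 h0
  · have h1 : InCone (P (0, s₀)) (P u) (P v) :=
      h.X (x := (0, s)) (y := (0, s₀)) hu hv (Nat.zero_le _) (Nat.zero_le _) huv
        (Or.inl ⟨rfl, hs⟩) (ne1 _ _ (by omega)) hm1 (ne2 _ _ (by omega)) hm2 h0
    exact h.F1 hu hv huv hm1 hm2 h1

/-- one step for membership in `Cone(m, a)` -/
theorem Ladder.step (h : Ladder P L C s₀) {i : ℕ} {s : Bool} (hi : i ≤ L) (hi1 : 1 ≤ i)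
    {u v : ℕ × Bool} (hu : u.1 ≤ L) (hv : v.1 ≤ L) (huv : ladj u v)
    (hu' : i < u.1 ∨ u = (i, !s)) (hv' : i < v.1 ∨ v = (i, !s))
    (hin : InCone (P u) (P (0, s₀)) (P (i, s))) : InCone (P v) (P (0, s₀)) (P (i, s)) := by
  by_contra hcon
  have h0 : ((0, s₀) : ℕ × Bool).1 ≤ L := Nat.zero_le _
  have ne1 : ∀ k t, k < i → u ≠ (k, t) := by
    rintro k t hk rfl
    rcases hu' with h' | h'
    · simp at h'; omega
    · simp at h'; omega
  have ne2 : ∀ k t, k < i → v ≠ (k, t) := by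
    rintro k t hk rfl
    rcases hv' with h' | h'
    · simp at h'; omega
    · simp at h'; omega
  have ne3 : u ≠ (i, s) := by
    rintro rfl
    rcases hu' with h' | h'
    · simp at h'
    · simp at h'
  have ne4 : v ≠ (i, s) := by
    rintro rfl
    rcases hv' with h' | h'
    · simp at h'
    · simp at h'
  have hm1 : u ≠ (0, s₀) := ne1 _ _ (by omega)
  have hm2 : v ≠ (0, s₀) := ne2 _ _ (by omega)
  have hma : ((0, s₀) : ℕ × Bool) ≠ (i, s) := by
    intro hh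
    have := congrArg Prod.fst hh
    simp at this; omega
  rcases lemS (h.gen _ _ h0 hi hma) (h.gen _ _ h0 hu hm1.symm) (h.gen _ _ h0 hv hm2.symm)
    (h.gen _ _ hi hu ne3.symm) (h.gen _ _ hi hv ne4.symm) (h.gen _ _ hu hv (ladj_ne huv))
    hin hcon with h' | h'
  · exact h.F1 hu hv huv hm1 hm2 h'
  · exact h.F2 hi hi1 hu hv huv hu' hv' h'

theorem Ladder.step_iff (h : Ladder P L C s₀) {i : ℕ} {s : Bool} (hi : i ≤ L) (hi1 : 1 ≤ i)
    {u v : ℕ × Bool} (hu : u.1 ≤ L) (hv : v.1 ≤ L) (huv : ladj u v)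
    (hu' : i < u.1 ∨ u = (i, !s)) (hv' : i < v.1 ∨ v = (i, !s)) :
    InCone (P u) (P (0, s₀)) (P (i, s)) ↔ InCone (P v) (P (0, s₀)) (P (i, s)) :=
  ⟨h.step hi hi1 hu hv huv hu' hv', h.step hi hi1 hv hu (ladj_symm huv) hv' hu'⟩

theorem Ladder.path (h : Ladder P L C s₀) {i : ℕ} {s : Bool} (hi : i ≤ L) (hi1 : 1 ≤ i)
    {l : ℕ} (hil : i < l) (hl : l ≤ L) (s' : Bool) :
    InCone (P (l, s')) (P (0, s₀)) (P (i, s)) ↔ InCone (P (i, !s)) (P (0, s₀)) (P (i, s)) := by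
  have key : ∀ k, i + k ≤ L → (InCone (P (i + k, !s)) (P (0, s₀)) (P (i, s)) ↔
      InCone (P (i, !s)) (P (0, s₀)) (P (i, s))) := by
    intro k
    induction k with
    | zero => intro _; simp
    | succ k ih =>
      intro hk
      rw [← ih (by omega)]
      refine h.step_iff hi hi1 (by simp; omega) (by simp; omega)
        (Or.inr ⟨rfl, Or.inl (by simp; omega)⟩) (Or.inl (by simp)) ?_
      rcases Nat.eq_zero_or_pos k with h0 | h0
      · subst h0; exact Or.inr (by simp)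
      · exact Or.inl (by simp; omega)
  have hk := key (l - i) (by omega)
  rw [show i + (l - i) = l by omega] at hk
  by_cases hs : s' = !s
  · subst hs; exact hk
  · rw [← hk]
    exact h.step_iff hi hi1 (by simpa using hl) (by simpa using hl) (Or.inl ⟨rfl, hs⟩)
      (Or.inl (by simpa using hil)) (Or.inl (by simpa using hil))

theorem Ladder.F3 (h : Ladder P L C s₀) {i : ℕ} (hi : i ≤ L) (hi1 : 1 ≤ i)
    {l : ℕ} (hil : i < l) (hl : l ≤ L) (s' : Bool) :
    InCone (P (l, s')) (P (i, false)) (P (i, true)) := by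
  have h0 : ((0, s₀) : ℕ × Bool).1 ≤ L := Nat.zero_le _
  have ne0 : ∀ k t, 1 ≤ k → ((0, s₀) : ℕ × Bool) ≠ (k, t) := by
    intro k t hk hh
    have := congrArg Prod.fst hh
    simp at this; omega
  have nel : ∀ t, ((i, t) : ℕ × Bool) ≠ (l, s') := by
    intro t hh
    have := congrArg Prod.fst hh
    simp at this; omega
  have hif : ((i, false) : ℕ × Bool) ≠ (i, true) := by simp
  refine lemR (m := P (0, s₀)) (h.gen _ _ h0 hi (ne0 _ _ hi1)) (h.gen _ _ h0 hi (ne0 _ _ hi1))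
    (h.gen _ _ h0 hl (ne0 _ _ (by omega))) (h.gen _ _ hi hi hif) (h.gen _ _ hi hl (nel _))
    (h.gen _ _ hi hl (nel _)) ?_ ?_ ?_
  · exact h.F1 hi hi (Or.inl ⟨rfl, by simp⟩) (ne0 _ _ hi1).symm (ne0 _ _ hi1).symm
  · exact h.path (s := false) hi hi1 hil hl s'
  · exact h.path (s := true) hi hi1 hil hl s'

theorem Ladder.grow (h : Ladder P L C s₀) {i : ℕ} (hi1 : 1 ≤ i) (hi : i + 2 ≤ L) (s : Bool) :
    C * ((P (i, false)).a + (P (i, true)).a) ≤ (1 + C) * (P (i + 2, s)).a := by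
  have hi' : i ≤ L := by omega
  have hne : ∀ t, ((i + 2, s) : ℕ × Bool) ≠ (i, t) := by
    intro t hh
    have := congrArg Prod.fst hh
    simp at this
  have hna : ∀ t, ¬ ladj (i + 2, s) (i, t) := by
    intro t hh
    rcases hh with ⟨h1, h2⟩ | ⟨h1, h2⟩
    · simp at h1
    · simp at h2; omega
  refine growth (h.F3 hi' hi1 (by omega) hi s) (h.close _ hi') (h.close _ hi')
    ((h.adj _ _ hi' hi' (by simp)).2 (Or.inl ⟨rfl, by simp⟩)) ?_ ?_
  · by_contra hc
    exact hna _ ((h.adj _ _ hi hi' (hne _)).1 (not_lt.1 hc))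
  · by_contra hc
    exact hna _ ((h.adj _ _ hi hi' (hne _)).1 (not_lt.1 hc))

theorem Ladder.bound (h : Ladder P L C s₀) {T : ℕ} (hT : 1 + 2 * T ≤ L) :
    (2 * C / (1 + C)) ^ T ≤ C := by
  have hC := h.one_le
  have h1C : 0 < 1 + C := by linarith
  have key : ∀ k, 1 + 2 * k ≤ L → 2 * (2 * C / (1 + C)) ^ k ≤
      (P (1 + 2 * k, false)).a + (P (1 + 2 * k, true)).a := by
    intro k
    induction k with
    | zero =>
      intro _
      have := one_le_a (P (1 + 2 * 0, false))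
      have := one_le_a (P (1 + 2 * 0, true))
      simp only [pow_zero]; linarith
    | succ k ih =>
      intro hk
      have ih' := ih (by omega)
      have g1 := h.grow (i := 1 + 2 * k) (by omega) (by omega) false
      have g2 := h.grow (i := 1 + 2 * k) (by omega) (by omega) true
      rw [show 1 + 2 * (k + 1) = 1 + 2 * k + 2 by ring, pow_succ]
      have e : 2 * ((2 * C / (1 + C)) ^ k * (2 * C / (1 + C)))
          = (2 * C * (2 * (2 * C / (1 + C)) ^ k)) / (1 + C) := by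
        field_simp
      rw [e, div_le_iff₀ h1C]
      have := mul_le_mul_of_nonneg_left ih' (by linarith : 0 ≤ 2 * C)
      linarith
  have h1 := key T hT
  have h2 := h.close (1 + 2 * T, false) hT
  have h3 := h.close (1 + 2 * T, true) hT
  linarith

/-- Consequence: for `T ≥ 4`, `(3/2)^T ≤ C`. -/
theorem Ladder.bound' (h : Ladder P L C s₀) (hC1 : 1 < C) {T : ℕ} (hT : 1 + 2 * T ≤ L)
    (hT4 : 4 ≤ T) : (3 / 2 : ℝ) ^ T ≤ C := by
  have hb := h.bound hT
  have hB := one_add_mul_le_pow (a := 2 * C / (1 + C) - 1) (by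
    have : 0 ≤ 2 * C / (1 + C) := by positivity
    linarith) T
  have e : 1 + (2 * C / (1 + C) - 1) = 2 * C / (1 + C) := by ring
  rw [e] at hB
  have e2 : 2 * C / (1 + C) - 1 = (C - 1) / (C + 1) := by field_simp; ring
  rw [e2] at hB
  have h4 : (4:ℝ) ≤ T := by exact_mod_cast hT4
  have h5 : (T:ℝ) * ((C - 1) / (C + 1)) ≤ C - 1 := by linarith
  have h6 : (T:ℝ) ≤ C + 1 := by
    rw [← mul_div_assoc, div_le_iff₀ (by linarith)] at h5
    have h7 : (C - 1) * T ≤ (C - 1) * (C + 1) := by linarith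
    exact le_of_mul_le_mul_left h7 (by linarith)
  have hC3 : 3 ≤ C := by linarith
  have h8 : (3 / 2 : ℝ) ≤ 2 * C / (1 + C) := by
    rw [le_div_iff₀ (by linarith)]; linarith
  exact le_trans (pow_le_pow_left₀ (by norm_num) h8 T) hb

end K4H59.HUDG
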