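import Mathlib
import Pool.Agent.K4H59.HUDGLadder

/-!
# From disk representations to ladders of points in general position
-/

namespace K4H59.HUDG

open UpperHalfPlane Filter Topology

/-- The point of the hyperboloid that belongs to `z`, seen from `c`. -/
noncomputable def toPt (c z : ℍ) : Pt where
  a := (((z.re - c.re) / c.im) ^ 2 + (z.im / c.im) ^ 2 + 1) / (2 * (z.im / c.im))
  x := (((z.re - c.re) / c.im) ^ 2 + (z.im / c.im) ^ 2 - 1) / (2 * (z.im / c.im))
  y := ((z.re - c.re) / c.im) / (z.im / c.im)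
  pos := by
    have h1 := z.im_pos
    have h2 := c.im_pos
    positivity
  eq := by
    have h1 := z.im_pos
    have h2 := c.im_pos
    field_simp
    ring

theorem toPt_a (c z : ℍ) : (toPt c z).a = Real.cosh (dist c z) := by
  rw [UpperHalfPlane.cosh_dist']
  have h1 := z.im_pos
  have h2 := c.im_pos
  show (((z.re - c.re) / c.im) ^ 2 + (z.im / c.im) ^ 2 + 1) / (2 * (z.im / c.im)) = _
  field_simp
  ring

theorem toPt_G (c z w : ℍ) : G (toPt c z) (toPt c w) = Real.cosh (dist z w) := by
  rw [UpperHalfPlane.cosh_dist']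
  have h1 := z.im_pos
  have h2 := c.im_pos
  have h3 := w.im_pos
  show (((z.re - c.re) / c.im) ^ 2 + (z.im / c.im) ^ 2 + 1) / (2 * (z.im / c.im)) *
    ((((w.re - c.re) / c.im) ^ 2 + (w.im / c.im) ^ 2 + 1) / (2 * (w.im / c.im))) -
    (((z.re - c.re) / c.im) ^ 2 + (z.im / c.im) ^ 2 - 1) / (2 * (z.im / c.im)) *
    ((((w.re - c.re) / c.im) ^ 2 + (w.im / c.im) ^ 2 - 1) / (2 * (w.im / c.im))) -
    ((z.re - c.re) / c.im) / (z.im / c.im) * (((w.re - c.re) / c.im) / (w.im / c.im)) = _
  field_simp
  ring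

/-- Rotation about the centre. -/
noncomputable def rot (t : ℝ) (q : Pt) : Pt where
  a := q.a
  x := q.x * Real.cos t - q.y * Real.sin t
  y := q.x * Real.sin t + q.y * Real.cos t
  pos := q.pos
  eq := by
    have h := q.eq
    have h2 := Real.sin_sq_add_cos_sq t
    linear_combination h - (q.x ^ 2 + q.y ^ 2) * h2

theorem rot_G (s t : ℝ) (u v : Pt) : G (rot s u) (rot t v) =
    u.a * v.a - ((u.x * v.x + u.y * v.y) * Real.cos (t - s) - D u v * Real.sin (t - s)) := by
  rw [Real.cos_sub, Real.sin_sub]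
  simp only [G, rot, D]
  ring

theorem rot_D (s t : ℝ) (u v : Pt) : D (rot s u) (rot t v) =
    D u v * Real.cos (t - s) + (u.x * v.x + u.y * v.y) * Real.sin (t - s) := by
  rw [Real.cos_sub, Real.sin_sub]
  simp only [rot, D]
  ring

/-- General position after a small perturbation. -/
theorem perturb {V : Type*} [Finite V] (q : V → Pt) (t : V → ℝ) (ht : Function.Injective t)
    (C : ℝ) (hq : ∀ v, (q v).x ^ 2 + (q v).y ^ 2 ≠ 0) (hqC : ∀ v, (q v).a ≤ C) :
    ∃ (C' : ℝ) (q' : V → Pt), C < C' ∧ C' ≤ C + 1 ∧ (∀ v, (q' v).a ≤ C') ∧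
      (∀ u v, u ≠ v → (G (q' u) (q' v) ≤ C' ↔ G (q u) (q v) ≤ C)) ∧
      (∀ u v, u ≠ v → D (q' u) (q' v) ≠ 0) := by
  classical
  -- choose C'
  have hC1 : ∀ᶠ c in 𝓝[>] C, C < c := eventually_mem_nhdsWithin
  have hC2 : ∀ᶠ c in 𝓝[>] C, c ≤ C + 1 := by
    apply eventually_nhdsWithin_of_eventually_nhds
    exact (continuous_id.tendsto C).eventually_le_const (by simp) |>.mono (fun _ h => h)
  have hC3 : ∀ᶠ c in 𝓝[>] C, ∀ u v : V, C < G (q u) (q v) → c < G (q u) (q v) := by
    rw [eventually_all]; intro u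
    rw [eventually_all]; intro v
    by_cases h : C < G (q u) (q v)
    · apply eventually_nhdsWithin_of_eventually_nhds
      exact ((continuous_id.tendsto C).eventually_lt_const h).mono (fun _ h _ => h)
    · exact Eventually.of_forall (fun _ h' => absurd h' h)
  obtain ⟨C', h1, h2, h3⟩ := (hC1.and (hC2.and hC3)).exists
  -- choose ε
  have hE1 : ∀ᶠ e in 𝓝[≠] (0:ℝ), ∀ u v : V, u ≠ v →
      D (rot (e * t u) (q u)) (rot (e * t v) (q v)) ≠ 0 := by
    rw [eventually_all]; intro u
    rw [eventually_all]; intro v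
    by_cases huv : u = v
    · exact Eventually.of_forall (fun _ h' => absurd huv h')
    have hne : t v - t u ≠ 0 := sub_ne_zero.2 (fun h => huv (ht h).symm)
    by_cases hD : D (q u) (q v) = 0
    · -- the inner product is nonzero
      have hE : (q u).x * (q v).x + (q u).y * (q v).y ≠ 0 := by
        intro h0
        have e : ((q u).x ^ 2 + (q u).y ^ 2) * ((q v).x ^ 2 + (q v).y ^ 2) =
          D (q u) (q v) ^ 2 + ((q u).x * (q v).x + (q u).y * (q v).y) ^ 2 := by unfold D; ring
        rw [hD, h0] at e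
        have := mul_ne_zero (hq u) (hq v)
        apply this; rw [e]; ring
      have hs : ∀ᶠ e in 𝓝[≠] (0:ℝ), -Real.pi < e * (t v - t u) ∧ e * (t v - t u) < Real.pi := by
        apply eventually_nhdsWithin_of_eventually_nhds
        have hc : Continuous (fun e : ℝ => e * (t v - t u)) := by fun_prop
        have hc0 := hc.tendsto 0
        simp only [zero_mul] at hc0
        exact (hc0.eventually_const_lt (by linarith [Real.pi_pos])).and
          (hc0.eventually_lt_const Real.pi_pos)
      filter_upwards [hs, self_mem_nhdsWithin] with e he he0 _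
      rw [rot_D, hD, zero_mul, zero_add]
      apply mul_ne_zero hE
      rw [← mul_sub]
      intro h0
      rw [Real.sin_eq_zero_iff_of_lt_of_lt he.1 he.2] at h0
      exact (mul_ne_zero he0 hne) h0
    · apply eventually_nhdsWithin_of_eventually_nhds
      have hc : Continuous (fun e : ℝ => D (rot (e * t u) (q u)) (rot (e * t v) (q v))) := by
        simp only [rot_D]; fun_prop
      have hc0 := hc.tendsto 0
      have e0 : D (rot (0 * t u) (q u)) (rot (0 * t v) (q v)) = D (q u) (q v) := by
        rw [rot_D]; simp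
      rw [e0] at hc0
      exact (hc0.eventually_ne hD).mono (fun _ h _ => h)
  have hE2 : ∀ᶠ e in 𝓝[≠] (0:ℝ), ∀ u v : V, u ≠ v →
      (G (rot (e * t u) (q u)) (rot (e * t v) (q v)) ≤ C' ↔ G (q u) (q v) ≤ C) := by
    rw [eventually_all]; intro u
    rw [eventually_all]; intro v
    have hc : Continuous (fun e : ℝ => G (rot (e * t u) (q u)) (rot (e * t v) (q v))) := by
      simp only [rot_G]; fun_prop
    have hc0 := hc.tendsto 0
    have e0 : G (rot (0 * t u) (q u)) (rot (0 * t v) (q v)) = G (q u) (q v) := by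
      rw [rot_G]; simp [G]; ring
    rw [e0] at hc0
    by_cases hG : G (q u) (q v) ≤ C
    · apply eventually_nhdsWithin_of_eventually_nhds
      refine (hc0.eventually_lt_const (lt_of_le_of_lt hG h1)).mono (fun e he _ => ?_)
      exact ⟨fun _ => hG, fun _ => he.le⟩
    · push Not at hG
      apply eventually_nhdsWithin_of_eventually_nhds
      refine (hc0.eventually_const_lt (h3 u v hG)).mono (fun e he _ => ?_)
      exact ⟨fun h => absurd h (not_le.2 he), fun h => absurd h (not_le.2 hG)⟩
  obtain ⟨e, he1, he2⟩ := (hE1.and hE2).exists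
  exact ⟨C', fun v => rot (e * t v) (q v), h1, h2, fun v => le_trans (hqC v) h1.le, he2, he1⟩

end K4H59.HUDG
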