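import Mathlib
import Pool.Agent.K4H59.HUDGLower

/-!
# The cone over the ladder: every disk representation has linear radius
-/

namespace K4H59.HUDG

open UpperHalfPlane Filter Topology

/-- `IsDiskRep G r p`: the points `p v` of the hyperbolic plane form a disk representation of `G`
with radius `r`. -/
def IsDiskRep {V : Type*} (G : SimpleGraph V) (r : ℝ) (p : V → UpperHalfPlane) : Prop :=
  0 < r ∧ ∀ u v : V, u ≠ v → (G.Adj u v ↔ dist (p u) (p v) ≤ 2 * r)

/-- Embedding of the `2 × N` ladder in the infinite one. -/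
def lv {N : ℕ} (p : Fin N × Bool) : ℕ × Bool := (p.1.val, p.2)

theorem lv_inj {N : ℕ} : Function.Injective (lv (N := N)) := by
  rintro ⟨i, s⟩ ⟨j, t⟩ h
  simp only [lv, Prod.mk.injEq] at h
  exact Prod.ext (Fin.ext h.1) h.2

/-- The cone over the `2 × N` ladder. -/
def coneLadder (N : ℕ) : SimpleGraph (Option (Fin N × Bool)) where
  Adj u v := match u, v with
    | none, none => False
    | none, some _ => True
    | some _, none => True
    | some p, some q => ladj (lv p) (lv q)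
  symm := by
    constructor
    rintro (_ | p) (_ | q) h
    · exact h
    · trivial
    · trivial
    · exact ladj_symm h
  loopless := by
    constructor
    rintro (_ | p) h
    · exact h
    · exact ladj_ne h rfl

theorem mkLadder {N : ℕ} {C : ℝ} (q : Fin N × Bool → Pt)
    (hadj : ∀ u v, u ≠ v → (G (q u) (q v) ≤ C ↔ ladj (lv u) (lv v)))
    (hclose : ∀ v, (q v).a ≤ C) (hgen : ∀ u v, u ≠ v → D (q u) (q v) ≠ 0)
    {i₀ : Fin N} {s₀ : Bool} (hmin : ∀ v, (q (i₀, s₀)).a ≤ (q v).a)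
    {L : ℕ} (φ : ℕ → Fin N) (h0 : φ 0 = i₀)
    (h1 : ∀ j k, j ≤ L → k ≤ L → (φ j = φ k → j = k))
    (h2 : ∀ j k, j ≤ L → k ≤ L → (((φ j).val = (φ k).val + 1 ∨ (φ k).val = (φ j).val + 1) ↔
      (j = k + 1 ∨ k = j + 1))) :
    Ladder (fun p => q (φ p.1, p.2)) L C s₀ where
  adj := by
    rintro ⟨j, s⟩ ⟨k, t⟩ hj hk hne
    have hne' : (φ j, s) ≠ (φ k, t) := by
      intro h
      simp only [Prod.mk.injEq] at h
      exact hne (Prod.ext (h1 j k hj hk h.1) h.2)
    show G (q (φ j, s)) (q (φ k, t)) ≤ C ↔ _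
    rw [hadj _ _ hne']
    unfold ladj lv
    simp only
    rw [h2 j k hj hk]
    have e : ((φ j).val = (φ k).val) ↔ j = k :=
      ⟨fun h => h1 j k hj hk (Fin.ext h), fun h => by rw [h]⟩
    rw [e]
  close := fun p _ => hclose _
  gen := by
    rintro ⟨j, s⟩ ⟨k, t⟩ hj hk hne
    have hne' : (φ j, s) ≠ (φ k, t) := by
      intro h
      simp only [Prod.mk.injEq] at h
      exact hne (Prod.ext (h1 j k hj hk h.1) h.2)
    exact hgen _ _ hne'
  min := by
    intro p _
    show (q (φ 0, s₀)).a ≤ _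
    rw [h0]; exact hmin _

theorem exists_ladder {N : ℕ} {C : ℝ} (q : Fin N × Bool → Pt)
    (hadj : ∀ u v, u ≠ v → (G (q u) (q v) ≤ C ↔ ladj (lv u) (lv v)))
    (hclose : ∀ v, (q v).a ≤ C) (hgen : ∀ u v, u ≠ v → D (q u) (q v) ≠ 0) (hN : 1 ≤ N) :
    ∃ (P : ℕ × Bool → Pt) (L : ℕ) (s₀ : Bool), Ladder P L C s₀ ∧ N ≤ 2 * L + 1 := by
  have : Nonempty (Fin N × Bool) := ⟨(⟨0, hN⟩, true)⟩
  obtain ⟨⟨i₀, s₀⟩, hmin⟩ := Finite.exists_min (fun v : Fin N × Bool => (q v).a)
  have hi := i₀.isLt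
  by_cases hc : N ≤ 2 * (N - 1 - i₀.val) + 1
  · -- upwards
    refine ⟨_, N - 1 - i₀.val, s₀, mkLadder q hadj hclose hgen hmin
      (fun k => if h : i₀.val + k < N then ⟨i₀.val + k, h⟩ else i₀) ?_ ?_ ?_, hc⟩
    · simp [hi]
    · intro j k hj hk h
      rw [dif_pos (by omega), dif_pos (by omega)] at h
      have := congrArg Fin.val h
      simp at this
      exact this
    · intro j k hj hk
      rw [dif_pos (by omega), dif_pos (by omega)]
      simp only
      omega
  · -- downwards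
    refine ⟨_, i₀.val, s₀, mkLadder q hadj hclose hgen hmin
      (fun k => ⟨i₀.val - k, by omega⟩) ?_ ?_ ?_, by omega⟩
    · simp
    · intro j k hj hk h
      have := congrArg Fin.val h
      simp at this
      omega
    · intro j k hj hk
      simp only
      omega

/-- The lower bound. -/
theorem radius_lower {N : ℕ} (hN : 1 ≤ N) {r : ℝ} {p : Option (Fin N × Bool) → UpperHalfPlane}
    (h : IsDiskRep (coneLadder N) r p) : (N : ℝ) / 20 - 1 ≤ r := by
  obtain ⟨hr, hrep⟩ := h
  by_cases hN17 : N ≤ 17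
  · have : (N : ℝ) ≤ 17 := by exact_mod_cast hN17
    linarith
  push Not at hN17
  set C := Real.cosh (2 * r) with hC
  have hdist : ∀ z w : UpperHalfPlane, dist z w ≤ 2 * r ↔ Real.cosh (dist z w) ≤ C := by
    intro z w
    rw [hC, Real.cosh_le_cosh, abs_of_nonneg dist_nonneg, abs_of_pos (by linarith)]
  let q : Fin N × Bool → Pt := fun v => toPt (p none) (p (some v))
  have hq1 : ∀ v, (q v).a ≤ C := by
    intro v
    show (toPt (p none) (p (some v))).a ≤ C
    rw [toPt_a, ← hdist]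
    exact (hrep none (some v) (by simp)).1 trivial
  have hq2 : ∀ u v, u ≠ v → (G (q u) (q v) ≤ C ↔ ladj (lv u) (lv v)) := by
    intro u v huv
    show G (toPt (p none) (p (some u))) (toPt (p none) (p (some v))) ≤ C ↔ _
    rw [toPt_G, ← hdist]
    exact (hrep (some u) (some v) (by simpa using huv)).symm
  have hq3 : ∀ v, (q v).x ^ 2 + (q v).y ^ 2 ≠ 0 := by
    rintro ⟨i, s⟩ h0
    have hx : (q (i, s)).x = 0 := by nlinarith [sq_nonneg (q (i, s)).x, sq_nonneg (q (i, s)).y]
    have hy : (q (i, s)).y = 0 := by nlinarith [sq_nonneg (q (i, s)).x, sq_nonneg (q (i, s)).y]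
    have ha : (q (i, s)).a = 1 := by
      have := (q (i, s)).eq
      rw [hx, hy] at this
      have hp := (q (i, s)).pos
      nlinarith
    -- a non-neighbour
    obtain ⟨j, hj⟩ : ∃ j : Fin N, j ≠ i := by
      by_cases hi0 : i.val = 0
      · exact ⟨⟨1, by omega⟩, fun h => by rw [← h] at hi0; simp at hi0⟩
      · exact ⟨⟨0, by omega⟩, fun h => by rw [← h] at hi0; simp at hi0⟩
    have hne : (i, s) ≠ (j, !s) := by simp
    have hn : ¬ ladj (lv (i, s)) (lv (j, !s)) := by
      unfold ladj lv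
      simp only
      rintro (⟨h1, _⟩ | ⟨h1, _⟩)
      · exact hj (Fin.ext h1.symm)
      · simp at h1
    apply hn
    rw [← hq2 _ _ hne]
    have : G (q (i, s)) (q (j, !s)) = (q (j, !s)).a := by
      unfold G; rw [hx, hy, ha]; ring
    rw [this]
    exact hq1 _
  obtain ⟨e⟩ := Finite.exists_equiv_fin (Fin N × Bool) |>.choose_spec
  obtain ⟨C', q', hC1, hC2, hq'1, hq'2, hq'3⟩ := perturb q (fun v => ((e v).val : ℝ))
    (fun u v huv => by
      have huv' : ((e u).val : ℝ) = ((e v).val : ℝ) := huv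
      have : (e u).val = (e v).val := by exact_mod_cast huv'
      exact e.injective (Fin.ext this)) C hq3 hq1
  obtain ⟨P, L, s₀, hL, hNL⟩ := exists_ladder q'
    (fun u v huv => (hq'2 u v huv).trans (hq2 u v huv)) hq'1 hq'3 hN
  have hC0 : 1 ≤ C := Real.one_le_cosh _
  obtain ⟨T, hT⟩ : ∃ T, T = (L - 1) / 2 := ⟨_, rfl⟩
  have hb := hL.bound' (by linarith) (T := T) (by omega) (by omega)
  have hexp : C ≤ Real.exp (2 * r) := by
    rw [hC, Real.cosh_eq]
    have : Real.exp (-(2 * r)) ≤ Real.exp (2 * r) := Real.exp_le_exp.2 (by linarith)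
    linarith
  have h1exp : 1 ≤ Real.exp (2 * r) := Real.one_le_exp (by linarith)
  have h2 : (3 / 2 : ℝ) ^ T ≤ 2 * Real.exp (2 * r) := by linarith
  have h3 : (T : ℝ) * Real.log (3 / 2) ≤ Real.log 2 + 2 * r := by
    have := Real.log_le_log (by positivity) h2
    rw [Real.log_pow, Real.log_mul (by norm_num) (by positivity), Real.log_exp] at this
    exact this
  have h4 : (2 / 5 : ℝ) ≤ Real.log (3 / 2) := by
    rw [Real.le_log_iff_exp_le (by norm_num)]
    have h5 : Real.exp (2 / 5) ^ 5 ≤ (3 / 2 : ℝ) ^ 5 := by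
      rw [← Real.exp_nat_mul]
      have : ((5 : ℕ) : ℝ) * (2 / 5) = 1 + 1 := by norm_num
      rw [this, Real.exp_add]
      have := Real.exp_one_lt_d9
      have := Real.exp_pos 1
      nlinarith
    exact le_of_pow_le_pow_left₀ (by norm_num) (by norm_num) h5
  have h6 : Real.log 2 ≤ 7 / 10 := by
    have := Real.log_two_lt_d9; linarith
  have h7 : (N : ℝ) ≤ 4 * T + 5 := by
    have : N ≤ 4 * T + 5 := by omega
    exact_mod_cast this
  have h8 : (T : ℝ) * (2 / 5) ≤ T * Real.log (3 / 2) :=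
    mul_le_mul_of_nonneg_left h4 (Nat.cast_nonneg _)
  linarith

end K4H59.HUDG
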