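import Mathlib
import Pool.Agent.K4H59.HUDGGraph

/-!
# A disk representation of the cone over the ladder with radius `N log 4`
-/

namespace K4H59.HUDG

open UpperHalfPlane

/-- The sign of a side. -/
def sgn (s : Bool) : ℝ := if s then 1 else -1

theorem sgn_sq (s : Bool) : sgn s ^ 2 = 1 := by cases s <;> simp [sgn]

/-- The representing points. -/
noncomputable def pts (N : ℕ) : Option (Fin N × Bool) → UpperHalfPlane
  | none => UpperHalfPlane.I
  | some p => ⟨⟨4 ^ (p.1.val) * (sgn p.2 * (Real.sinh (N * Real.log 4) / Real.cosh (N * Real.log 4))),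
      4 ^ (p.1.val) * (1 / Real.cosh (N * Real.log 4))⟩, by
        have := Real.cosh_pos (N * Real.log 4)
        positivity⟩

theorem pts_re (N : ℕ) (p : Fin N × Bool) : (pts N (some p)).re =
    4 ^ (p.1.val) * (sgn p.2 * (Real.sinh (N * Real.log 4) / Real.cosh (N * Real.log 4))) := rfl

theorem pts_im (N : ℕ) (p : Fin N × Bool) : (pts N (some p)).im =
    4 ^ (p.1.val) * (1 / Real.cosh (N * Real.log 4)) := rfl

theorem cosh_lower {N : ℕ} {i : ℕ} (hi : i ≤ N) :
    ((4:ℝ) ^ i + ((4:ℝ) ^ i)⁻¹) / 2 ≤ Real.cosh (N * Real.log 4) := by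
  have h4 : 0 < Real.log 4 := Real.log_pos (by norm_num)
  have e : ((4:ℝ) ^ i + ((4:ℝ) ^ i)⁻¹) / 2 = Real.cosh (i * Real.log 4) := by
    rw [Real.cosh_eq, Real.exp_neg, Real.exp_nat_mul, Real.exp_log (by norm_num)]
  rw [e, Real.cosh_le_cosh, abs_of_nonneg (by positivity), abs_of_nonneg (by positivity)]
  exact mul_le_mul_of_nonneg_right (by exact_mod_cast hi) h4.le

theorem rep_upper {N : ℕ} (hN : 1 ≤ N) : IsDiskRep (coneLadder N) (N * Real.log 4) (pts N) := by
  have h4 : 0 < Real.log 4 := Real.log_pos (by norm_num)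
  have hN' : (1:ℝ) ≤ N := by exact_mod_cast hN
  have hr : 0 < (N:ℝ) * Real.log 4 := by positivity
  refine ⟨hr, ?_⟩
  set K := Real.cosh (N * Real.log 4) with hK
  set S := Real.sinh (N * Real.log 4) with hS
  have hKpos : 0 < K := Real.cosh_pos _
  have hKS : K ^ 2 = 1 + S ^ 2 := Real.cosh_sq' _
  have hK1 : (17:ℝ) / 8 ≤ K := by
    have := cosh_lower (N := N) (i := 1) hN
    rw [← hK] at this
    norm_num at this
    linarith
  have hC : Real.cosh (2 * (N * Real.log 4)) = 2 * K ^ 2 - 1 := by
    rw [Real.cosh_two_mul, ← hK, ← hS]; linarith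
  have hdist : ∀ z w : UpperHalfPlane, dist z w ≤ 2 * (N * Real.log 4) ↔
      ((z.re - w.re) ^ 2 + z.im ^ 2 + w.im ^ 2) / (2 * z.im * w.im) ≤ 2 * K ^ 2 - 1 := by
    intro z w
    rw [← hC, ← UpperHalfPlane.cosh_dist', Real.cosh_le_cosh, abs_of_nonneg dist_nonneg,
      abs_of_pos (by linarith)]
  -- the apex
  have hapex : ∀ p : Fin N × Bool, dist (pts N none) (pts N (some p)) ≤ 2 * (N * Real.log 4) := by
    intro p
    rw [hdist, pts_re, pts_im, ← hK, ← hS]
    have hre : (pts N none).re = 0 := rfl
    have him : (pts N none).im = 1 := rfl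
    rw [hre, him]
    have hl := cosh_lower (N := N) (i := p.1.val) p.1.isLt.le
    rw [← hK] at hl
    set A := (4:ℝ) ^ p.1.val with hA
    have hApos : 0 < A := by positivity
    have hs := sgn_sq p.2
    rw [div_le_iff₀ (by positivity)]
    have e1 : (0 - A * (sgn p.2 * (S / K))) ^ 2 + 1 ^ 2 + (A * (1 / K)) ^ 2 = A ^ 2 + 1 := by
      have : (0 - A * (sgn p.2 * (S / K))) ^ 2 = A ^ 2 * (sgn p.2 ^ 2) * S ^ 2 / K ^ 2 := by
        field_simp; ring
      rw [this, hs]
      field_simp
      rw [hKS]; ring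
    rw [e1]
    have e2 : (2 * K ^ 2 - 1) * (2 * 1 * (A * (1 / K))) = (2 * K ^ 2 - 1) * (2 * A) / K := by
      field_simp
    rw [e2, le_div_iff₀ hKpos]
    have hl2 : A ^ 2 + 1 ≤ 2 * A * K := by
      have : (A + A⁻¹) / 2 * (2 * A) ≤ K * (2 * A) :=
        mul_le_mul_of_nonneg_right hl (by positivity)
      have e3 : (A + A⁻¹) / 2 * (2 * A) = A ^ 2 + 1 := by field_simp
      linarith
    nlinarith [mul_le_mul_of_nonneg_right hl2 hKpos.le,
      mul_pos hApos (by nlinarith : 0 < K ^ 2 - 1)]
  -- two ladder vertices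
  have hlad : ∀ p q : Fin N × Bool, p ≠ q →
      (ladj (lv p) (lv q) ↔ dist (pts N (some p)) (pts N (some q)) ≤ 2 * (N * Real.log 4)) := by
    rintro ⟨i, s⟩ ⟨j, t⟩ hne
    rw [hdist, pts_re, pts_im, pts_re, pts_im, ← hK, ← hS]
    simp only [lv, ladj]
    set A := (4:ℝ) ^ i.val with hA
    set B := (4:ℝ) ^ j.val with hB
    have hApos : 0 < A := by positivity
    have hBpos : 0 < B := by positivity
    rw [div_le_iff₀ (by positivity)]
    by_cases hst : s = t
    · subst hst
      have hij : i.val ≠ j.val := fun h => hne (by rw [Fin.ext h])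
      have e1 : (A * (sgn s * (S / K)) - B * (sgn s * (S / K))) ^ 2 + (A * (1 / K)) ^ 2 +
          (B * (1 / K)) ^ 2 = (A - B) ^ 2 + 2 * A * B / K ^ 2 := by
        have : (A * (sgn s * (S / K)) - B * (sgn s * (S / K))) ^ 2 =
            (A - B) ^ 2 * (sgn s ^ 2) * S ^ 2 / K ^ 2 := by
          field_simp
        rw [this, sgn_sq]
        field_simp
        rw [hKS]; ring
      have e2 : (2 * K ^ 2 - 1) * (2 * (A * (1 / K)) * (B * (1 / K))) =
          4 * A * B - 2 * A * B / K ^ 2 := by
        field_simp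
        ring
      rw [e1, e2]
      have hinv : 2 * A * B / K ^ 2 ≤ 2 * A * B * (64 / 289) := by
        rw [div_eq_mul_inv]
        apply mul_le_mul_of_nonneg_left _ (by positivity)
        rw [inv_le_comm₀ (by positivity) (by norm_num)]
        nlinarith
      have hinv0 : 0 < 2 * A * B / K ^ 2 := by positivity
      constructor
      · rintro (⟨h1, _⟩ | ⟨_, h1⟩)
        · exact absurd h1 hij
        · have hAB : (A - B) ^ 2 = 9 / 4 * (A * B) := by
            rcases h1 with h1 | h1
            · have : A = 4 * B := by rw [hA, hB, h1]; ring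
              rw [this]; ring
            · have : B = 4 * A := by rw [hA, hB, h1]; ring
              rw [this]; ring
          rw [hAB]
          nlinarith [mul_pos hApos hBpos]
      · intro h
        right
        refine ⟨rfl, ?_⟩
        by_contra hcon
        push Not at hcon
        have hbig : 225 / 16 * (A * B) ≤ (A - B) ^ 2 := by
          rcases lt_or_gt_of_ne hij with h1 | h1
          · -- i < j, j ≥ i + 2
            have h2 : i.val + 2 ≤ j.val := by omega
            have h3 : 16 * A ≤ B := by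
              rw [hA, hB]
              calc (16:ℝ) * 4 ^ i.val = 4 ^ (i.val + 2) := by ring
                _ ≤ 4 ^ j.val := pow_le_pow_right₀ (by norm_num) h2
            nlinarith [mul_nonneg hApos.le (sub_nonneg.2 h3),
              mul_nonneg hBpos.le (sub_nonneg.2 h3)]
          · have h2 : j.val + 2 ≤ i.val := by omega
            have h3 : 16 * B ≤ A := by
              rw [hA, hB]
              calc (16:ℝ) * 4 ^ j.val = 4 ^ (j.val + 2) := by ring
                _ ≤ 4 ^ i.val := pow_le_pow_right₀ (by norm_num) h2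
            nlinarith [mul_nonneg hApos.le (sub_nonneg.2 h3),
              mul_nonneg hBpos.le (sub_nonneg.2 h3)]
        nlinarith [mul_pos hApos hBpos]
    · have hsgn : sgn t = - sgn s := by
        cases s <;> cases t <;> simp_all [sgn]
      have e1 : (A * (sgn s * (S / K)) - B * (sgn t * (S / K))) ^ 2 + (A * (1 / K)) ^ 2 +
          (B * (1 / K)) ^ 2 = (A + B) ^ 2 - 2 * A * B / K ^ 2 := by
        have : (A * (sgn s * (S / K)) - B * (sgn t * (S / K))) ^ 2 =
            (A + B) ^ 2 * (sgn s ^ 2) * S ^ 2 / K ^ 2 := by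
          rw [hsgn]
          field_simp
          ring
        rw [this, sgn_sq]
        field_simp
        rw [hKS]; ring
      have e2 : (2 * K ^ 2 - 1) * (2 * (A * (1 / K)) * (B * (1 / K))) =
          4 * A * B - 2 * A * B / K ^ 2 := by
        field_simp
        ring
      rw [e1, e2]
      constructor
      · rintro (⟨h1, _⟩ | ⟨h1, _⟩)
        · have : A = B := by rw [hA, hB, h1]
          rw [this]; linarith
        · exact absurd h1 hst
      · intro h
        left
        refine ⟨?_, hst⟩
        have h0 : (A - B) ^ 2 ≤ 0 := by nlinarith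
        have h00 : (A - B) ^ 2 = 0 := le_antisymm h0 (sq_nonneg (A - B))
        have h1 : A = B := by
          have := pow_eq_zero_iff (two_ne_zero) |>.1 h00
          linarith
        rw [hA, hB] at h1
        exact Nat.pow_right_injective (by norm_num : 2 ≤ 4) (by exact_mod_cast h1)
  rintro (_ | p) (_ | q) huv
  · exact absurd rfl huv
  · exact ⟨fun _ => hapex q, fun _ => trivial⟩
  · exact ⟨fun _ => by rw [dist_comm]; exact hapex p, fun _ => trivial⟩
  · exact hlad p q (fun h => huv (by rw [h]))

/-- Disk representations can be moved along an equivalence of the vertex sets. -/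
theorem IsDiskRep.transport {V W : Type*} (e : W ≃ V) {G : SimpleGraph V} {r : ℝ}
    {p : V → UpperHalfPlane} (h : IsDiskRep G r p) : IsDiskRep (G.comap e) r (p ∘ e) := by
  refine ⟨h.1, fun u v huv => ?_⟩
  rw [SimpleGraph.comap_adj]
  exact h.2 _ _ (fun h' => huv (e.injective h'))

theorem IsDiskRep.transport' {V W : Type*} (e : W ≃ V) {G : SimpleGraph V} {r : ℝ}
    {p : W → UpperHalfPlane} (h : IsDiskRep (G.comap e) r p) : IsDiskRep G r (p ∘ e.symm) := by
  refine ⟨h.1, fun u v huv => ?_⟩
  have := h.2 (e.symm u) (e.symm v) (fun h' => huv (e.symm.injective h'))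
  rw [SimpleGraph.comap_adj] at this
  simpa using this

theorem main_linear (N : ℕ) (hN : 1 ≤ N) : ∃ G : SimpleGraph (Fin (2 * N + 1)),
    (∃ p, IsDiskRep G (N * Real.log 4) p) ∧
    ∀ (r : ℝ) (p : Fin (2 * N + 1) → UpperHalfPlane), IsDiskRep G r p →
      (N : ℝ) / 20 - 1 ≤ r := by
  have hcard : Fintype.card (Option (Fin N × Bool)) = 2 * N + 1 := by
    simp [Fintype.card_option]; ring
  let e : Fin (2 * N + 1) ≃ Option (Fin N × Bool) := (Fintype.equivFinOfCardEq hcard).symm
  exact ⟨(coneLadder N).comap e, ⟨_, (rep_upper hN).transport e⟩,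
    fun r p h => radius_lower hN h.transport'⟩

end K4H59.HUDG
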