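import Mathlib

set_option autoImplicit false

/-!
# No equivalent norm on `ℓ^∞` behaves like a locally uniformly convex norm

For every equivalent norm `N` on `ℓ^∞` there are `x` and unit vectors `e_{b_k}` with
`N (x ± e_{b_k}) ≤ N x + o(1)`.
-/

open Filter Topology Set
open scoped ENNReal

namespace Pool.Agent.K4H59.LUR

variable {𝕜 : Type} [RCLike 𝕜]

/-- The space of bounded sequences. -/
abbrev Linf (𝕜 : Type) [RCLike 𝕜] : Type := lp (fun _ : ℕ => 𝕜) ∞

lemma bounded_of_apply {f : Linf 𝕜} {C : ℝ} (hC : 0 ≤ C) (h : ∀ n, ‖f n‖ ≤ C) : ‖f‖ ≤ C :=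
  lp.norm_le_of_forall_le hC h

lemma apply_le (f : Linf 𝕜) (n : ℕ) : ‖f n‖ ≤ ‖f‖ := lp.norm_apply_le_norm (by simp) f n

/-- Splitting an infinite set into infinitely many infinite sets shows that `N` cannot be decreased
by a fixed amount by perturbations supported in all small sets. -/
lemma exists_stable (N : Seminorm 𝕜 (Linf 𝕜)) {b : ℝ} (hb : ∀ x, N x ≤ b * ‖x‖) (x : Linf 𝕜)
    {A : Set ℕ} (hA : A.Infinite) {ε : ℝ} (hε : 0 < ε) :
    ∃ A' ⊆ A, A'.Infinite ∧
      ∀ y : Linf 𝕜, (∀ n, n ∉ A' → y n = 0) → ‖y‖ ≤ 2 → N x ≤ N (x + y) + ε := by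
  classical
  by_contra hcon
  push Not at hcon
  set e : ℕ → ℕ := Nat.nth (· ∈ A) with he
  have he1 : StrictMono e := Nat.nth_strictMono hA
  have he2 : ∀ n, e n ∈ A := fun n => Nat.nth_mem_of_infinite hA n
  set B : ℕ → Set ℕ := fun j => Set.range fun k => e (Nat.pair j k) with hB
  have hBsub : ∀ j, B j ⊆ A := by
    rintro j _ ⟨k, rfl⟩
    exact he2 _
  have hBinf : ∀ j, (B j).Infinite := by
    intro j
    apply Set.infinite_range_of_injective
    intro k k' hk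
    have h1 := he1.injective hk
    exact (Nat.pair_eq_pair.1 h1).2
  have hBdis : ∀ j j' m, m ∈ B j → m ∈ B j' → j = j' := by
    rintro j j' m ⟨k, hk⟩ ⟨k', hk'⟩
    have h1 : e (Nat.pair j k) = e (Nat.pair j' k') := by
      rw [show e (Nat.pair j k) = m from hk, show e (Nat.pair j' k') = m from hk']
    have h2 := he1.injective h1
    exact (Nat.pair_eq_pair.1 h2).1
  have hch : ∀ j, ∃ y : Linf 𝕜, (∀ n, n ∉ B j → y n = 0) ∧ ‖y‖ ≤ 2 ∧ N (x + y) + ε < N x :=
    fun j => hcon (B j) (hBsub j) (hBinf j)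
  choose y hy1 hy2 hy3 using hch
  obtain ⟨M, hM⟩ := exists_nat_gt (2 * b / ε)
  have hM' : 2 * b < M * ε := by
    rwa [div_lt_iff₀ hε] at hM
  set S : Linf 𝕜 := ∑ j ∈ Finset.range M, y j with hS
  have hSn : ∀ n, S n = ∑ j ∈ Finset.range M, y j n := by
    intro n
    rw [hS, lp.coeFn_sum, Finset.sum_apply]
  have hSnorm : ‖S‖ ≤ 2 := by
    apply bounded_of_apply (by norm_num)
    intro n
    rw [hSn n]
    by_cases hn : ∃ j ∈ Finset.range M, n ∈ B j
    · obtain ⟨j, hj, hnj⟩ := hn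
      rw [Finset.sum_eq_single_of_mem j hj]
      · exact (apply_le _ _).trans (hy2 j)
      · intro j' _ hj'
        apply hy1 j' n
        intro h
        exact hj' (hBdis _ _ _ h hnj)
    · push Not at hn
      rw [Finset.sum_eq_zero (fun j hj => hy1 j n (hn j hj))]
      simp
  have h1 : N ((M : 𝕜) • x) = M * N x := by
    rw [map_smul_eq_mul]
    congr 1
    exact RCLike.norm_natCast M
  have h2 : (M : 𝕜) • x + S = ∑ j ∈ Finset.range M, (x + y j) := by
    rw [Finset.sum_add_distrib, Finset.sum_const, Finset.card_range, hS, Nat.cast_smul_eq_nsmul]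
  have h3 : N ((M : 𝕜) • x + S) ≤ M * (N x - ε) := by
    rw [h2]
    calc N (∑ j ∈ Finset.range M, (x + y j)) ≤ ∑ j ∈ Finset.range M, N (x + y j) :=
          Finset.le_sum_of_subadditive N (map_zero N).le (map_add_le_add N) _ _
      _ ≤ ∑ _j ∈ Finset.range M, (N x - ε) := by
          apply Finset.sum_le_sum
          intro j _
          have := hy3 j
          linarith
      _ = M * (N x - ε) := by rw [Finset.sum_const, Finset.card_range, nsmul_eq_mul]
  have h4 : N S ≤ 2 * b := by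
    have h5 := hb S
    have hb0 : 0 ≤ b := by
      have h6 := hb (lp.single ∞ 0 (1 : 𝕜))
      rw [lp.norm_single (by simp)] at h6
      simp only [norm_one, mul_one] at h6
      exact (apply_nonneg N _).trans h6
    nlinarith
  have h5 : N ((M : 𝕜) • x) ≤ N ((M : 𝕜) • x + S) + N S := by
    have h6 : (M : 𝕜) • x = ((M : 𝕜) • x + S) - S := by abel
    calc N ((M : 𝕜) • x) = N (((M : 𝕜) • x + S) - S) := by rw [← h6]
      _ ≤ _ := map_sub_le_add N _ _
  rw [h1] at h5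
  nlinarith

/-- One step of the construction. -/
lemma exists_step (N : Seminorm 𝕜 (Linf 𝕜)) {b : ℝ} (hb : ∀ x, N x ≤ b * ‖x‖) (x : Linf 𝕜)
    (hx : ‖x‖ ≤ 1) {A : Set ℕ} (hA : A.Infinite) {ε : ℝ} (hε : 0 < ε) :
    ∃ (x' : Linf 𝕜) (A' : Set ℕ) (m : ℕ), ‖x'‖ ≤ 1 ∧ A'.Infinite ∧ A' ⊆ A ∧ m ∈ A ∧ m ∉ A' ∧
      x' m = 0 ∧ (∀ n, n ∉ A → x' n = x n) ∧
      ∀ w w' : Linf 𝕜, ‖w‖ ≤ 1 → (∀ n, n ∉ A → w n = x n) → ‖w'‖ ≤ 1 →
        (∀ n, n ∉ A' → w' n = x' n) → N w ≤ N w' + ε := by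
  classical
  have hb0 : 0 ≤ b := by
    have h6 := hb (lp.single ∞ 0 (1 : 𝕜))
    rw [lp.norm_single (by simp)] at h6
    simp only [norm_one, mul_one] at h6
    exact (apply_nonneg N _).trans h6
  set F : Set (Linf 𝕜) := {w | ‖w‖ ≤ 1 ∧ ∀ n, n ∉ A → w n = x n} with hF
  have hbdd : BddAbove (N '' F) := by
    refine ⟨b, ?_⟩
    rintro _ ⟨w, hw, rfl⟩
    have := hb w
    have h1 := hw.1
    nlinarith
  have hne : (N '' F).Nonempty := ⟨N x, x, ⟨hx, fun _ _ => rfl⟩, rfl⟩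
  obtain ⟨_, ⟨z, hz, rfl⟩, hz'⟩ := exists_lt_of_lt_csSup hne
    (show sSup (N '' F) - ε / 2 < sSup (N '' F) by linarith)
  obtain ⟨A1, hA1, hA1inf, hA1st⟩ := exists_stable N hb z hA (half_pos hε)
  obtain ⟨m, hm⟩ := hA1inf.nonempty
  have hx'n : ∀ n, (z - lp.single ∞ m (z m) : Linf 𝕜) n = if n = m then 0 else z n := by
    intro n
    rw [lp.coeFn_sub, Pi.sub_apply]
    by_cases h : n = m
    · subst h
      rw [lp.single_apply_self]
      simp
    · rw [lp.single_apply_ne _ _ _ h]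
      simp [h]
  refine ⟨z - lp.single ∞ m (z m), A1 \ {m}, m, ?_, ?_, ?_, hA1 hm, ?_, ?_, ?_, ?_⟩
  · apply bounded_of_apply zero_le_one
    intro n
    rw [hx'n n]
    split_ifs
    · simp
    · exact (apply_le z n).trans hz.1
  · exact hA1inf.sdiff (Set.finite_singleton m)
  · exact Set.sdiff_subset.trans hA1
  · simp
  · rw [hx'n]; simp
  · intro n hn
    rw [hx'n]
    have h1 : n ≠ m := by
      rintro rfl
      exact hn (hA1 hm)
    rw [if_neg h1]
    exact hz.2 n hn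
  · intro w w' hw1 hw2 hw'1 hw'2
    have h1 : N w ≤ sSup (N '' F) := le_csSup hbdd ⟨w, ⟨hw1, hw2⟩, rfl⟩
    have h2 : N z ≤ N (z + (w' - z)) + ε / 2 := by
      apply hA1st
      · intro n hn
        rw [lp.coeFn_sub, Pi.sub_apply]
        have h3 : n ∉ A1 \ {m} := fun h => hn h.1
        rw [hw'2 n h3, hx'n]
        have h4 : n ≠ m := by
          rintro rfl
          exact hn hm
        rw [if_neg h4]
        simp
      · calc ‖w' - z‖ ≤ ‖w'‖ + ‖z‖ := norm_sub_le _ _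
          _ ≤ 1 + 1 := add_le_add hw'1 hz.1
          _ = 2 := by norm_num
    rw [add_sub_cancel] at h2
    linarith

/-- The state of the construction. -/
structure St (𝕜 : Type) [RCLike 𝕜] where
  /-- the current vector -/
  x : Linf 𝕜
  /-- the current free set -/
  A : Set ℕ
  hx : ‖x‖ ≤ 1
  hA : A.Infinite

/-- For every equivalent norm on `ℓ^∞` there are `x ≠ 0` and unit vectors `e_{m_k}` with
`N (x ± e_{m_k}) ≤ N x + δ_k`. -/
lemma exists_flat (N : Seminorm 𝕜 (Linf 𝕜)) {a b : ℝ} (hab : ∀ x, a * ‖x‖ ≤ N x)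
    (hb : ∀ x, N x ≤ b * ‖x‖) (δ : ℕ → ℝ) (hδ : ∀ k, 0 < δ k) (hδ0 : δ 0 ≤ a / 2) :
    ∃ (x : Linf 𝕜) (m : ℕ → ℕ), a / 2 ≤ N x ∧ ∀ k,
      N (x + lp.single ∞ (m k) (1 : 𝕜)) ≤ N x + δ k ∧
      N (x - lp.single ∞ (m k) (1 : 𝕜)) ≤ N x + δ k := by
  classical
  have hstep : ∀ (k : ℕ) (s : St 𝕜), ∃ (t : St 𝕜) (m : ℕ), t.A ⊆ s.A ∧ m ∈ s.A ∧ m ∉ t.A ∧
      t.x m = 0 ∧ (∀ n, n ∉ s.A → t.x n = s.x n) ∧
      ∀ w w' : Linf 𝕜, ‖w‖ ≤ 1 → (∀ n, n ∉ s.A → w n = s.x n) → ‖w'‖ ≤ 1 →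
        (∀ n, n ∉ t.A → w' n = t.x n) → N w ≤ N w' + δ k := by
    intro k s
    obtain ⟨x', A', m, h1, h2, h3, h4, h5, h6, h7, h8⟩ := exists_step N hb s.x s.hx s.hA (hδ k)
    exact ⟨⟨x', A', h1, h2⟩, m, h3, h4, h5, h6, h7, h8⟩
  choose nx mm hsub hm1 hm2 hm3 hag hN using hstep
  let s0 : St 𝕜 := ⟨0, Set.univ, by simp, Set.infinite_univ⟩
  let s : ℕ → St 𝕜 := fun k => Nat.rec s0 (fun k t => nx k t) k
  have hs0 : s 0 = s0 := rfl
  have hss : ∀ k, s (k + 1) = nx k (s k) := fun k => rfl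
  let m : ℕ → ℕ := fun k => mm k (s k)
  have hAanti : Antitone fun k => (s k).A := by
    apply antitone_nat_of_succ_le
    intro k
    rw [hss]
    exact hsub k (s k)
  have hxs : ∀ k j, ∀ n, n ∉ (s k).A → (s (k + j)).x n = (s k).x n := by
    intro k j n hn
    induction j with
    | zero => rfl
    | succ j ih =>
      have h1 : n ∉ (s (k + j)).A := fun h => hn (hAanti (Nat.le_add_right k j) h)
      rw [← add_assoc, hss, hag (k + j) (s (k + j)) n h1, ih]
  -- the limit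
  let f : ℕ → 𝕜 := fun n => if h : ∃ k, n ∉ (s k).A then (s (Nat.find h)).x n else 0
  have hf : ∀ k n, n ∉ (s k).A → f n = (s k).x n := by
    intro k n hn
    have h : ∃ k, n ∉ (s k).A := ⟨k, hn⟩
    have h1 : f n = (s (Nat.find h)).x n := by
      simp only [f]
      rw [dif_pos h]
    rw [h1]
    have h2 : Nat.find h ≤ k := Nat.find_min' h hn
    obtain ⟨j, hj⟩ := Nat.exists_eq_add_of_le h2
    have h3 := hxs (Nat.find h) j n (Nat.find_spec h)
    rw [← hj] at h3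
    exact h3.symm
  have hfb : ∀ n, ‖f n‖ ≤ 1 := by
    intro n
    by_cases h : ∃ k, n ∉ (s k).A
    · obtain ⟨k, hk⟩ := h
      rw [hf k n hk]
      exact (apply_le _ _).trans (s k).hx
    · simp only [f]
      rw [dif_neg h]
      simp
  have hfm : Memℓp f ∞ := memℓp_infty ⟨1, by rintro _ ⟨n, rfl⟩; exact hfb n⟩
  let X : Linf 𝕜 := ⟨f, hfm⟩
  have hXn : ∀ n, X n = f n := fun n => rfl
  have hX1 : ‖X‖ ≤ 1 := bounded_of_apply zero_le_one hfb
  have hXag : ∀ k n, n ∉ (s k).A → X n = (s k).x n := fun k n hn => hf k n hn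
  have hXm : ∀ k, X (m k) = 0 := by
    intro k
    have h1 : m k ∉ (s (k + 1)).A := by
      rw [hss]
      exact hm2 k (s k)
    rw [hXag (k + 1) _ h1, hss]
    exact hm3 k (s k)
  have key : ∀ k (w : Linf 𝕜), ‖w‖ ≤ 1 → (∀ n, n ∉ (s k).A → w n = (s k).x n) →
      N w ≤ N X + δ k := by
    intro k w hw1 hw2
    refine hN k (s k) w X hw1 hw2 hX1 ?_
    intro n hn
    rw [hXag (k + 1) n (by rw [hss]; exact hn), hss]
  refine ⟨X, m, ?_, ?_⟩
  · have h1 := key 0 (lp.single ∞ 0 (1 : 𝕜)) (by rw [lp.norm_single (by simp)]; simp)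
      (fun n hn => absurd (Set.mem_univ n) hn)
    have h2 := hab (lp.single ∞ 0 (1 : 𝕜))
    rw [lp.norm_single (by simp)] at h2
    simp only [norm_one, mul_one] at h2
    linarith
  · intro k
    have hpt : ∀ (c : 𝕜), ‖c‖ ≤ 1 → ∀ n, (X + lp.single ∞ (m k) c : Linf 𝕜) n =
        if n = m k then c else X n := by
      intro c _ n
      rw [lp.coeFn_add, Pi.add_apply]
      by_cases h : n = m k
      · subst h
        rw [lp.single_apply_self, hXm]
        simp
      · rw [lp.single_apply_ne _ _ _ h]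
        simp [h]
    have hgen : ∀ (c : 𝕜), ‖c‖ ≤ 1 → N (X + lp.single ∞ (m k) c) ≤ N X + δ k := by
      intro c hc
      apply key k
      · apply bounded_of_apply zero_le_one
        intro n
        rw [hpt c hc n]
        split_ifs
        · exact hc
        · exact hfb n
      · intro n hn
        rw [hpt c hc n]
        have h1 : n ≠ m k := by
          rintro rfl
          exact hn (hm1 k (s k))
        rw [if_neg h1]
        exact hXag k n hn
    refine ⟨hgen 1 (by simp), ?_⟩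
    have h2 := hgen (-1) (by simp)
    rw [lp.single_neg] at h2
    rw [sub_eq_add_neg]
    exact h2

end Pool.Agent.K4H59.LUR
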